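import Pool.Agent.W844.LIS.Union

set_option autoImplicit false
set_option linter.unusedSectionVars false
set_option linter.unusedVariables false

open MeasureTheory ProbabilityTheory Filter Finset
open scoped Topology ENNReal

namespace Pool.Agent.W844.LIS

/-- The length of the longest weakly increasing subsequence of `s 0, ..., s (n - 1)`. -/
noncomputable def lis (s : ℕ → ℝ) (n : ℕ) : ℕ :=
  sSup {m : ℕ | ∃ I : Finset ℕ, I ⊆ Finset.range n ∧ MonotoneOn s (I : Set ℕ) ∧ I.card = m}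

theorem lis_bdd (s : ℕ → ℝ) (n : ℕ) :
    BddAbove {m : ℕ | ∃ I : Finset ℕ, I ⊆ Finset.range n ∧ MonotoneOn s (I : Set ℕ) ∧ I.card = m} := by
  refine ⟨n, ?_⟩
  rintro m ⟨I, hI, -, rfl⟩
  simpa using card_le_card hI

theorem lis_nonempty (s : ℕ → ℝ) (n : ℕ) :
    {m : ℕ | ∃ I : Finset ℕ, I ⊆ Finset.range n ∧ MonotoneOn s (I : Set ℕ) ∧ I.card = m}.Nonempty :=
  ⟨0, ∅, by simp, by simp [MonotoneOn], by simp⟩

theorem lis_le {s : ℕ → ℝ} {n : ℕ} {B : ℝ}
    (h : ∀ I : Finset ℕ, I ⊆ Finset.range n → MonotoneOn s (I : Set ℕ) → (I.card : ℝ) ≤ B) :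
    (lis s n : ℝ) ≤ B := by
  obtain ⟨I, hI1, hI2, hI3⟩ := Nat.sSup_mem (lis_nonempty s n) (lis_bdd s n)
  have : lis s n = I.card := hI3.symm
  rw [this]
  exact h I hI1 hI2

theorem lis_mono (s : ℕ → ℝ) {n n' : ℕ} (h : n ≤ n') : lis s n ≤ lis s n' := by
  obtain ⟨I, hI1, hI2, hI3⟩ := Nat.sSup_mem (lis_nonempty s n) (lis_bdd s n)
  have e : lis s n = I.card := hI3.symm
  rw [e]
  exact le_csSup (lis_bdd s n') ⟨I, hI1.trans (range_mono h), hI2, rfl⟩

/-- an increasing subsequence is on a monotone path -/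
theorem card_le_Y {a : ℝ → ℝ} {V ρ : ℝ} (ha : Good a V ρ) {s : ℕ → ℝ} {N : ℕ}
    {I : Finset ℕ} (hI : I ⊆ range N) (hm : MonotoneOn s (I : Set ℕ)) :
    (I.card : ℝ) * a 0 ≤ Y a s 1 N := by
  rcases I.eq_empty_or_nonempty with h0 | hne
  · rw [h0]
    simp only [card_empty, Nat.cast_zero, zero_mul]
    refine le_trans ?_ (le_Y ha.le0 (g := fun _ => 0) monotone_const)
    exact sum_nonneg fun i _ => ha.nn _
  · set i0 := I.min' hne with hi0
    let T : ℕ → Finset ℕ := fun t => insert i0 (I.filter fun i => i ≤ t)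
    have hT : ∀ t, (T t).Nonempty := fun t => insert_nonempty _ _
    let g : ℕ → ℝ := fun t => (T t).sup' (hT t) s
    have hg : Monotone g := by
      intro t t' htt
      refine sup'_mono s ?_ (hT t)
      refine insert_subset_insert _ fun i hi => ?_
      rw [mem_filter] at hi ⊢
      exact ⟨hi.1, hi.2.trans htt⟩
    have hgI : ∀ t ∈ I, g t = s t := by
      intro t ht
      refine le_antisymm ?_ ?_
      · refine sup'_le (hT t) s fun i hi => ?_
        rcases mem_insert.1 hi with h | h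
        · rw [h]
          exact hm (I.min'_mem hne) ht (I.min'_le t ht)
        · rw [mem_filter] at h
          exact hm h.1 ht h.2
      · have hmem : t ∈ T t := mem_insert_of_mem (mem_filter.2 ⟨ht, le_rfl⟩)
        exact le_sup' s hmem
    refine le_trans ?_ (le_Y ha.le0 (s := s) (m := 1) (N := N) hg)
    unfold LT
    calc (I.card : ℝ) * a 0 = ∑ i ∈ I, a (s (i * 1) - g i) := by
          rw [sum_congr rfl (g := fun _ => a 0)]
          · simp
          · intro i hi
            rw [hgI i hi, mul_one, sub_self]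
      _ ≤ _ := sum_le_sum_of_subset_of_nonneg hI fun i _ _ => ha.nn _

theorem chain {y : ℕ → ℝ} {K : ℕ} {B C : ℝ} (hK : 1 ≤ K) (hC : 0 ≤ C) (hKC : 2 * C ≤ K)
    (hB : 0 ≤ B) (hy : ∀ k, 0 ≤ y k)
    (h : ∀ k < K, y k ≤ B + (1 + 1 / (K : ℝ)) * y (k + 1) + C / K * y k) :
    y 0 ≤ Real.exp (2 * C + 1) * (y K + 2 * B * K) := by
  have hK0 : (0 : ℝ) < K := by exact_mod_cast hK
  set r := (1 + 2 * C / K) * (1 + 1 / (K : ℝ)) with hr
  have hCK : 2 * C / K ≤ 1 := by rw [div_le_one hK0]; exact hKC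
  have hCK0 : 0 ≤ C / K := by positivity
  have h2 : 2 * C / K = 2 * (C / K) := by ring
  have hr1 : 1 ≤ r := by
    rw [hr]
    have : (0 : ℝ) ≤ 1 / (K : ℝ) := by positivity
    have : (0 : ℝ) ≤ 2 * C / K := by positivity
    nlinarith
  have h1 : ∀ k < K, y k ≤ 2 * B + r * y (k + 1) := by
    intro k hk
    have h3 := h k hk
    have h4 : y k ≤ (1 + 2 * C / K) * ((1 - C / K) * y k) := by
      have : 1 ≤ (1 + 2 * C / K) * (1 - C / K) := by rw [h2] at hCK ⊢; nlinarith
      have := mul_le_mul_of_nonneg_right this (hy k)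
      linarith
    have h5 : (1 - C / K) * y k ≤ B + (1 + 1 / (K : ℝ)) * y (k + 1) := by linarith
    have h6 : (0 : ℝ) ≤ 1 + 2 * C / K := by positivity
    have h7 := mul_le_mul_of_nonneg_left h5 h6
    have h8 : (1 + 2 * C / K) * B ≤ 2 * B := by nlinarith
    calc y k ≤ (1 + 2 * C / K) * (B + (1 + 1 / (K : ℝ)) * y (k + 1)) := h4.trans h7
      _ = (1 + 2 * C / K) * B + r * y (k + 1) := by rw [hr]; ring
      _ ≤ _ := by linarith
  have h3 : ∀ d ≤ K, y (K - d) ≤ r ^ d * (y K + 2 * B * d) := by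
    intro d
    induction d with
    | zero => intro _; simp
    | succ d ih =>
      intro hd
      have ih' := ih (by omega)
      have h4 := h1 (K - (d + 1)) (by omega)
      have e : K - (d + 1) + 1 = K - d := by omega
      rw [e] at h4
      have hrp : 1 ≤ r ^ (d + 1) := one_le_pow₀ hr1
      calc y (K - (d + 1)) ≤ 2 * B + r * y (K - d) := h4
        _ ≤ 2 * B + r * (r ^ d * (y K + 2 * B * d)) := by gcongr
        _ = 2 * B + r ^ (d + 1) * (y K + 2 * B * d) := by rw [pow_succ]; ring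
        _ ≤ r ^ (d + 1) * (2 * B) + r ^ (d + 1) * (y K + 2 * B * d) := by nlinarith
        _ = _ := by push_cast; ring
  have h4 := h3 K le_rfl
  rw [Nat.sub_self] at h4
  refine h4.trans ?_
  have h5 : r ^ K ≤ Real.exp (2 * C + 1) := by
    have h6 : r ≤ Real.exp ((2 * C + 1) / K) := by
      have e1 := Real.add_one_le_exp (2 * C / K)
      have e2 := Real.add_one_le_exp (1 / (K : ℝ))
      calc r ≤ Real.exp (2 * C / K) * Real.exp (1 / (K : ℝ)) := by
            rw [hr]
            have : (0 : ℝ) ≤ 2 * C / K := by positivity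
            gcongr <;> linarith
        _ = _ := by rw [← Real.exp_add]; congr 1; ring
    calc r ^ K ≤ Real.exp ((2 * C + 1) / K) ^ K := by gcongr
      _ = Real.exp (2 * C + 1) := by
          rw [← Real.exp_nat_mul]; congr 1; field_simp
  have h6 : 0 ≤ y K + 2 * B * K := by have := hy K; positivity
  gcongr

end Pool.Agent.W844.LIS
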