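import Mathlib

set_option autoImplicit false
set_option linter.unusedSectionVars false
set_option linter.unusedVariables false

open Finset

namespace Pool.Agent.W844.LIS

/-- number of nondecreasing maps from `Fin J` to `Fin R` -/
theorem card_mono (J R : ℕ) :
    ((univ : Finset (Fin J → Fin R)).filter fun f => Monotone f).card ≤ (J + 1) ^ R := by
  classical
  let c : (Fin J → Fin R) → (Fin R → Fin (J + 1)) := fun f v =>
    ⟨((univ : Finset (Fin J)).filter fun j => f j ≤ v).card,
      Nat.lt_succ_of_le ((card_filter_le _ _).trans (by simp))⟩
  have key : ∀ f : Fin J → Fin R, Monotone f → ∀ (v : Fin R) (j : Fin J),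
      f j ≤ v ↔ (j : ℕ) < (c f v : ℕ) := by
    intro f hf v j
    have hset : ∀ j : Fin J, f j ≤ v →
        ((univ : Finset (Fin J)).filter fun i => i ≤ j) ⊆ (univ : Finset (Fin J)).filter fun i => f i ≤ v := by
      intro j hj i hi
      rw [mem_filter] at hi ⊢
      exact ⟨mem_univ _, (hf hi.2).trans hj⟩
    constructor
    · intro h
      have h1 := card_le_card (hset j h)
      have h2 : ((univ : Finset (Fin J)).filter fun i => i ≤ j).card = (j : ℕ) + 1 := by
        have : ((univ : Finset (Fin J)).filter fun i => i ≤ j) = Finset.Iic j := by
          ext i; simp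
        rw [this, Fin.card_Iic]
      rw [h2] at h1
      exact h1
    · intro h
      by_contra hc
      have h1 : ((univ : Finset (Fin J)).filter fun i => f i ≤ v) ⊆
          (univ : Finset (Fin J)).filter fun i => i < j := by
        intro i hi
        rw [mem_filter] at hi ⊢
        refine ⟨mem_univ _, ?_⟩
        by_contra hij
        exact hc ((hf (not_lt.1 hij)).trans hi.2)
      have h2 := card_le_card h1
      have h3 : ((univ : Finset (Fin J)).filter fun i => i < j).card = (j : ℕ) := by
        have : ((univ : Finset (Fin J)).filter fun i => i < j) = Finset.Iio j := by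
          ext i; simp
        rw [this, Fin.card_Iio]
      rw [h3] at h2
      exact absurd (lt_of_lt_of_le h h2) (lt_irrefl _)
  have hinj : Set.InjOn c ((univ : Finset (Fin J → Fin R)).filter fun f => Monotone f) := by
    intro f hf g hg hfg
    have hf' := (mem_filter.1 hf).2
    have hg' := (mem_filter.1 hg).2
    funext j
    have h1 : ∀ v, f j ≤ v ↔ g j ≤ v := by
      intro v
      rw [key f hf' v j, key g hg' v j, hfg]
    exact le_antisymm ((h1 _).2 le_rfl) ((h1 _).1 le_rfl)
  calc ((univ : Finset (Fin J → Fin R)).filter fun f => Monotone f).card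
      ≤ (univ : Finset (Fin R → Fin (J + 1))).card :=
        card_le_card_of_injOn c (fun _ _ => by simp) hinj
    _ = (J + 1) ^ R := by simp

end Pool.Agent.W844.LIS
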