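import Mathlib

set_option autoImplicit false
set_option linter.unusedSectionVars false
set_option linter.unusedVariables false

open Finset

namespace Pool.Agent.W844.LIS

/-- value of a path `g` -/
noncomputable def LT (a : ℝ → ℝ) (s : ℕ → ℝ) (m N : ℕ) (g : ℕ → ℝ) : ℝ :=
  ∑ i ∈ range N, a (s (i * m) - g i)

/-- supremum over monotone paths -/
noncomputable def Y (a : ℝ → ℝ) (s : ℕ → ℝ) (m N : ℕ) : ℝ :=
  sSup {L | ∃ g : ℕ → ℝ, Monotone g ∧ L = LT a s m N g}

theorem Y_bdd {a : ℝ → ℝ} (ha1 : ∀ x, a x ≤ a 0) (s : ℕ → ℝ) (m N : ℕ) :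
    BddAbove {L | ∃ g : ℕ → ℝ, Monotone g ∧ L = LT a s m N g} := by
  refine ⟨N * a 0, ?_⟩
  rintro L ⟨g, -, rfl⟩
  unfold LT
  calc ∑ i ∈ range N, a (s (i * m) - g i) ≤ ∑ i ∈ range N, a 0 := sum_le_sum fun i _ => ha1 _
    _ = _ := by simp

theorem le_Y {a : ℝ → ℝ} (ha1 : ∀ x, a x ≤ a 0) {s : ℕ → ℝ} {m N : ℕ} {g : ℕ → ℝ}
    (hg : Monotone g) : LT a s m N g ≤ Y a s m N :=
  le_csSup (Y_bdd ha1 s m N) ⟨g, hg, rfl⟩

theorem Y_le {a : ℝ → ℝ} {s : ℕ → ℝ} {m N : ℕ} {B : ℝ}
    (h : ∀ g : ℕ → ℝ, Monotone g → LT a s m N g ≤ B) : Y a s m N ≤ B := by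
  refine csSup_le ⟨LT a s m N (fun _ => 0), fun _ => 0, monotone_const, rfl⟩ ?_
  rintro L ⟨g, hg, rfl⟩
  exact h g hg

/-- the hypotheses on the local time functions -/
structure Good (a : ℝ → ℝ) (V ρ : ℝ) : Prop where
  nn : ∀ x, 0 ≤ a x
  le0 : ∀ x, a x ≤ a 0
  lip : ∀ x y, a x ≤ a y + 2 * |x - y|
  lip2 : ∀ x y d, 0 < d → |x - y| < |x| → d ≤ |x| - |x - y| →
    a x ≤ a y + 2 * |x - y| * (V / d ^ 2)
  uni1 : ∀ x y, 0 ≤ y → y ≤ x → a x ≤ a y
  uni2 : ∀ x y, x ≤ y → y ≤ 0 → a x ≤ a y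
  low : ∀ x, |x| ≤ ρ → ρ ≤ a x

/-- weights -/
noncomputable def bw (M : ℤ) : ℝ := if M = 0 then 1 else 1 / (M : ℝ) ^ 2

theorem bw_nonneg (M : ℤ) : 0 ≤ bw M := by unfold bw; split_ifs <;> positivity

theorem bw_summable : Summable bw := by
  have h1 : Summable fun M : ℤ => 1 / |(M : ℝ)| ^ (2 : ℝ) :=
    Real.summable_one_div_int_pow.2 (by norm_num : 1 < 2) |>.congr (fun M => by
      rw [show ((2 : ℝ)) = ((2 : ℕ) : ℝ) by norm_num, Real.rpow_natCast, sq_abs])
  have h2 : Summable fun M : ℤ => 1 / (M : ℝ) ^ 2 := Real.summable_one_div_int_pow.2 (by norm_num)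
  have h3 : Summable fun M : ℤ => (if M = 0 then (1 : ℝ) else 0) :=
    summable_of_ne_finset_zero (s := {0}) (fun M hM => by simp at hM; simp [hM])
  refine (h3.add h2).congr fun M => ?_
  unfold bw
  split_ifs with h
  · simp [h]
  · simp

noncomputable def BW : ℝ := ∑' M, bw M

theorem BW_nonneg : 0 ≤ BW := tsum_nonneg bw_nonneg

theorem sum_bw_le (T : Finset ℤ) : ∑ M ∈ T, bw M ≤ BW :=
  bw_summable.sum_le_tsum T fun M _ => bw_nonneg M

/-- the error terms, one point -/
theorem err_point {a : ℝ → ℝ} {V ρ h : ℝ} (ha : Good a V ρ) (hV : 0 ≤ V) (hh : 0 < h)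
    (hρ : 8 * h ≤ ρ) {x y : ℝ} (hxy : |x - y| ≤ 2 * h) :
    a x ≤ a y + 4 * h * ((1 + 4 * V / ρ ^ 2) * bw (round (y / ρ))) := by
  have hρ0 : 0 < ρ := by linarith
  set M := round (y / ρ) with hM
  have h1 : |y / ρ - M| ≤ 1 / 2 := abs_sub_round _
  have h2 : |y - M * ρ| ≤ ρ / 2 := by
    have : y - M * ρ = (y / ρ - M) * ρ := by field_simp
    rw [this, abs_mul, abs_of_pos hρ0]
    nlinarith
  have hq : 0 ≤ 4 * V / ρ ^ 2 := by positivity
  by_cases hM1 : |M| ≤ 1
  · have h3 : bw M = 1 := by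
      rw [abs_le] at hM1
      have : M = -1 ∨ M = 0 ∨ M = 1 := by omega
      unfold bw
      rcases this with h | h | h <;> rw [h] <;> norm_num
    rw [h3]
    have h4 := ha.lip x y
    nlinarith
  · push Not at hM1
    have hM0 : M ≠ 0 := by
      rintro h0; rw [h0] at hM1; simp at hM1
    have h3 : bw M = 1 / (M : ℝ) ^ 2 := by unfold bw; rw [if_neg hM0]
    have hMr : (2 : ℝ) ≤ |(M : ℝ)| := by
      have : (2 : ℤ) ≤ |M| := by omega
      exact_mod_cast this
    have h4 : |(M : ℝ)| * ρ - ρ / 2 ≤ |y| := by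
      have h5 : |(M : ℝ) * ρ| ≤ |y| + |y - M * ρ| := by
        calc |(M : ℝ) * ρ| = |y - (y - M * ρ)| := by ring_nf
          _ ≤ _ := abs_sub _ _
      rw [abs_mul, abs_of_pos hρ0] at h5
      linarith
    have h6 : |y| - 2 * h ≤ |x| := by
      have : |y| ≤ |x| + |x - y| := by
        calc |y| = |x - (x - y)| := by ring_nf
          _ ≤ _ := abs_sub _ _
      linarith
    have h7 : |(M : ℝ)| * ρ / 2 ≤ |x| - |x - y| := by nlinarith
    have h8 : 0 < |(M : ℝ)| * ρ / 2 := by positivity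
    have h9 := ha.lip2 x y (|(M : ℝ)| * ρ / 2) h8 (by linarith) h7
    have h10 : V / (|(M : ℝ)| * ρ / 2) ^ 2 = 4 * V / ρ ^ 2 * bw M := by
      rw [h3, div_pow, mul_pow, sq_abs]
      field_simp
      ring
    rw [h10] at h9
    have h11 : 0 ≤ 4 * V / ρ ^ 2 * bw M := mul_nonneg hq (bw_nonneg _)
    have h12 := bw_nonneg M
    have h13 : 2 * |x - y| * (4 * V / ρ ^ 2 * bw M) ≤ 4 * h * (4 * V / ρ ^ 2 * bw M) :=
      mul_le_mul_of_nonneg_right (by linarith) h11
    nlinarith

/-- the error terms, sum along a monotone path -/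
theorem err_sum {a : ℝ → ℝ} {V ρ : ℝ} (ha : Good a V ρ) (hρ0 : 0 < ρ) (s : ℕ → ℝ) (m N : ℕ)
    (g : ℕ → ℝ) (hg : Monotone g) :
    ∑ i ∈ range N, bw (round ((s (i * m) - g i) / ρ)) ≤ BW * (Y a s m N / ρ) := by
  set f : ℕ → ℤ := fun i => round ((s (i * m) - g i) / ρ) with hf
  have h1 : ∀ M : ℤ, (((range N).filter fun i => f i = M).card : ℝ) ≤ Y a s m N / ρ := by
    intro M
    rw [le_div_iff₀ hρ0]
    have hg' : Monotone fun i => g i + M * ρ := fun i j hij => by
      have := hg hij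
      simp only; linarith
    refine le_trans ?_ (le_Y ha.le0 (s := s) (m := m) (N := N) hg')
    unfold LT
    calc (((range N).filter fun i => f i = M).card : ℝ) * ρ
        = ∑ i ∈ (range N).filter fun i => f i = M, ρ := by simp
      _ ≤ ∑ i ∈ (range N).filter fun i => f i = M, a (s (i * m) - (g i + M * ρ)) := by
          refine sum_le_sum fun i hi => ?_
          have hi' : f i = M := (mem_filter.1 hi).2
          refine ha.low _ ?_
          have h2 : |(s (i * m) - g i) / ρ - M| ≤ 1 / 2 := by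
            rw [← hi']; exact abs_sub_round _
          have h3 : s (i * m) - (g i + M * ρ) = ((s (i * m) - g i) / ρ - M) * ρ := by
            field_simp; ring
          rw [h3, abs_mul, abs_of_pos hρ0]
          nlinarith
      _ ≤ _ := sum_le_sum_of_subset_of_nonneg (filter_subset _ _) fun i _ _ => ha.nn _
  have hY : 0 ≤ Y a s m N / ρ := le_trans (Nat.cast_nonneg _) (h1 0)
  calc ∑ i ∈ range N, bw (f i)
      = ∑ M ∈ (range N).image f, ∑ i ∈ (range N).filter fun i => f i = M, bw (f i) :=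
        (sum_fiberwise_of_maps_to (fun i hi => mem_image_of_mem f hi) _).symm
    _ = ∑ M ∈ (range N).image f, (((range N).filter fun i => f i = M).card : ℝ) * bw M := by
        refine sum_congr rfl fun M _ => ?_
        rw [← nsmul_eq_mul, ← sum_const]
        refine sum_congr rfl fun i hi => ?_
        rw [(mem_filter.1 hi).2]
    _ ≤ ∑ M ∈ (range N).image f, (Y a s m N / ρ) * bw M := by
        refine sum_le_sum fun M _ => ?_
        exact mul_le_mul_of_nonneg_right (h1 M) (bw_nonneg M)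
    _ = (Y a s m N / ρ) * ∑ M ∈ (range N).image f, bw M := by rw [mul_sum]
    _ ≤ (Y a s m N / ρ) * BW := mul_le_mul_of_nonneg_left (sum_bw_le _) hY
    _ = _ := mul_comm _ _

/-- clipping -/
theorem clip_le {a : ℝ → ℝ} {V ρ : ℝ} (ha : Good a V ρ) {W x y : ℝ} (hx : |x| ≤ W) :
    a (x - y) ≤ a (x - max (-W) (min W y)) := by
  rw [abs_le] at hx
  rcases le_total y W with h1 | h1
  · rw [min_eq_right h1]
    rcases le_total (-W) y with h2 | h2
    · rw [max_eq_right h2]
    · rw [max_eq_left h2]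
      exact ha.uni1 _ _ (by linarith) (by linarith)
  · rw [min_eq_left h1, max_eq_right (by linarith)]
    exact ha.uni2 _ _ (by linarith) (by linarith)

theorem sum_range_four {N : ℕ} (f : ℕ → ℝ) :
    ∑ i ∈ range (4 * N), f i = ∑ j ∈ range N, ∑ r ∈ range 4, f (4 * j + r) := by
  induction N with
  | zero => simp
  | succ N ih =>
    rw [show 4 * (N + 1) = 4 * N + 4 by ring, sum_range_add, ih, sum_range_succ _ N]

/-- one scale -/
theorem step {a a' : ℝ → ℝ} {V ρ V' ρ' h W θ D : ℝ} {s : ℕ → ℝ} {m J Q : ℕ}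
    (ha : Good a V ρ) (ha' : Good a' V' ρ') (hV : 0 ≤ V) (hh : 0 < h) (hρ : 8 * h ≤ ρ)
    (hθ : 0 ≤ θ) (hJ : 0 < J)
    (hW : W = Q * h) (hs : ∀ i < 4 * J, |s (i * m)| ≤ W)
    (hdev : ∀ q : ℕ → ℤ, Monotone q → (∀ j, |q j| ≤ Q) →
      ∑ j ∈ range J, ((∑ r ∈ range 4, a (s ((4 * j + r) * m) - h * q j)) -
        (1 + θ) * a' (s (4 * j * m) - h * q j)) ≤ D) :
    Y a s m (4 * J) ≤ 8 * a 0 * W / h + D + (1 + θ) * Y a' s (4 * m) J +
      4 * h * ((1 + 4 * V / ρ ^ 2) * (BW * (Y a s m (4 * J) / ρ))) := by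
  have hρ0 : 0 < ρ := by linarith
  refine Y_le fun g₀ hg₀ => ?_
  -- clip
  set g : ℕ → ℝ := fun i => max (-W) (min W (g₀ i)) with hgdef
  have hg : Monotone g := fun i j hij => max_le_max le_rfl (min_le_min le_rfl (hg₀ hij))
  have hW0 : 0 ≤ W := by rw [hW]; positivity
  have hgl : ∀ i, -W ≤ g i := fun i => le_max_left _ _
  have hgu : ∀ i, g i ≤ W := fun i => max_le (by linarith) (min_le_left _ _)
  have h0 : LT a s m (4 * J) g₀ ≤ LT a s m (4 * J) g :=
    sum_le_sum fun i hi => clip_le ha (hs i (mem_range.1 hi))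
  refine h0.trans ?_
  -- rounding
  set q : ℕ → ℤ := fun j => ⌊g (4 * j) / h⌋ with hqdef
  have hq : Monotone q := fun i j hij => by
    refine Int.floor_le_floor ?_
    have := hg (show 4 * i ≤ 4 * j by omega)
    gcongr
  have hqb : ∀ j, |q j| ≤ Q := by
    intro j
    rw [abs_le]
    constructor
    · have : ((-(Q : ℤ) : ℤ) : ℝ) ≤ g (4 * j) / h := by
        rw [le_div_iff₀ hh]
        push_cast
        have := hgl (4 * j)
        rw [hW] at this
        linarith
      exact Int.le_floor.2 this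
    · have : g (4 * j) / h < ((Q : ℤ) : ℝ) + 1 := by
        rw [div_lt_iff₀ hh]
        have := hgu (4 * j)
        rw [hW] at this
        push_cast
        nlinarith
      have h2 : ⌊g (4 * j) / h⌋ < (Q : ℤ) + 1 := by
        rw [Int.floor_lt]; push_cast at this ⊢; exact this
      have h3 : q j < (Q : ℤ) + 1 := h2
      omega
  have hd := hdev q hq hqb
  -- distance of rounded path
  have hr1 : ∀ j, h * q j ≤ g (4 * j) := by
    intro j
    have := Int.floor_le (g (4 * j) / h)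
    rw [le_div_iff₀ hh] at this
    have e : (q j : ℝ) = (⌊g (4 * j) / h⌋ : ℤ) := rfl
    rw [e]; linarith
  have hr2 : ∀ j, g (4 * j) < h * q j + h := by
    intro j
    have := Int.lt_floor_add_one (g (4 * j) / h)
    rw [div_lt_iff₀ hh] at this
    have e : (q j : ℝ) = (⌊g (4 * j) / h⌋ : ℤ) := rfl
    rw [e]; linarith
  -- the monotone path in terms of fine indices
  set p : ℕ → ℝ := fun i => h * q (i / 4) with hpdef
  have hp : Monotone p := fun i j hij => by
    have h1 : q (i / 4) ≤ q (j / 4) := hq (Nat.div_le_div_right hij)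
    have h2 : (q (i / 4) : ℝ) ≤ q (j / 4) := by exact_mod_cast h1
    exact mul_le_mul_of_nonneg_left h2 hh.le
  have hp4 : ∀ j r, r ∈ range 4 → p (4 * j + r) = h * q j := by
    intro j r hr
    have : (4 * j + r) / 4 = j := by have := mem_range.1 hr; omega
    show h * q ((4 * j + r) / 4) = _
    rw [this]
  set C := 1 + 4 * V / ρ ^ 2 with hC
  have hC0 : 0 ≤ C := by positivity
  -- block bound
  set bad : ℕ → Prop := fun j => h < g (4 * j + 3) - g (4 * j) with hbad
  have hblock : ∀ j, ∑ r ∈ range 4, a (s ((4 * j + r) * m) - g (4 * j + r)) ≤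
      ∑ r ∈ range 4, (a (s ((4 * j + r) * m) - h * q j) +
        4 * h * (C * bw (round ((s ((4 * j + r) * m) - p (4 * j + r)) / ρ)))) +
      4 * a 0 / h * (g (4 * j + 3) - g (4 * j)) := by
    intro j
    have hinc : 0 ≤ g (4 * j + 3) - g (4 * j) := sub_nonneg.2 (hg (by omega))
    by_cases hb : bad j
    · have h1 : ∑ r ∈ range 4, a (s ((4 * j + r) * m) - g (4 * j + r)) ≤ 4 * a 0 := by
        calc _ ≤ ∑ r ∈ range 4, a 0 := sum_le_sum fun r _ => ha.le0 _
          _ = _ := by simp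
      have h2 : 0 ≤ ∑ r ∈ range 4, (a (s ((4 * j + r) * m) - h * q j) +
        4 * h * (C * bw (round ((s ((4 * j + r) * m) - p (4 * j + r)) / ρ)))) := by
        refine sum_nonneg fun r _ => ?_
        have := ha.nn (s ((4 * j + r) * m) - h * q j)
        have := bw_nonneg (round ((s ((4 * j + r) * m) - p (4 * j + r)) / ρ))
        positivity
      have h3 : 4 * a 0 ≤ 4 * a 0 / h * (g (4 * j + 3) - g (4 * j)) := by
        have ha00 := ha.nn 0
        have hb' : h ≤ g (4 * j + 3) - g (4 * j) := le_of_lt hb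
        calc 4 * a 0 = 4 * a 0 / h * h := by field_simp
          _ ≤ _ := by gcongr
      linarith
    · have hb' : g (4 * j + 3) - g (4 * j) ≤ h := not_lt.1 hb
      have h1 : ∑ r ∈ range 4, a (s ((4 * j + r) * m) - g (4 * j + r)) ≤
          ∑ r ∈ range 4, (a (s ((4 * j + r) * m) - h * q j) +
            4 * h * (C * bw (round ((s ((4 * j + r) * m) - p (4 * j + r)) / ρ)))) := by
        refine sum_le_sum fun r hr => ?_
        rw [hp4 j r hr]
        refine err_point ha hV hh hρ ?_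
        have hr4 := mem_range.1 hr
        have e1 : g (4 * j) ≤ g (4 * j + r) := hg (by omega)
        have e2 : g (4 * j + r) ≤ g (4 * j + 3) := hg (by omega)
        have e3 := hr1 j
        have e4 := hr2 j
        rw [abs_le]
        constructor <;> linarith
      have ha00 := ha.nn 0
      have h2 : 0 ≤ 4 * a 0 / h * (g (4 * j + 3) - g (4 * j)) := by positivity
      linarith
  -- telescoping
  have htel : ∑ j ∈ range J, (g (4 * j + 3) - g (4 * j)) ≤ 2 * W := by
    have h1 : ∀ n, ∑ j ∈ range n, (g (4 * j + 3) - g (4 * j)) ≤ g (4 * n) - g 0 := by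
      intro n
      induction n with
      | zero => simp
      | succ n ih =>
        rw [sum_range_succ]
        have : g (4 * n + 3) ≤ g (4 * (n + 1)) := hg (by omega)
        linarith
    have h2 := h1 J
    have h3 := hgu (4 * J)
    have h4 := hgl 0
    linarith
  have ha00 := ha.nn 0
  calc LT a s m (4 * J) g = ∑ j ∈ range J, ∑ r ∈ range 4, a (s ((4 * j + r) * m) - g (4 * j + r)) :=
        sum_range_four _
    _ ≤ ∑ j ∈ range J, (∑ r ∈ range 4, (a (s ((4 * j + r) * m) - h * q j) +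
        4 * h * (C * bw (round ((s ((4 * j + r) * m) - p (4 * j + r)) / ρ)))) +
      4 * a 0 / h * (g (4 * j + 3) - g (4 * j))) := sum_le_sum fun j _ => hblock j
    _ = ∑ j ∈ range J, ∑ r ∈ range 4, a (s ((4 * j + r) * m) - h * q j) +
        4 * h * (C * ∑ i ∈ range (4 * J), bw (round ((s (i * m) - p i) / ρ))) +
        4 * a 0 / h * ∑ j ∈ range J, (g (4 * j + 3) - g (4 * j)) := by
        rw [sum_range_four (fun i => bw (round ((s (i * m) - p i) / ρ)))]
        rw [sum_add_distrib, ← mul_sum]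
        congr 1
        simp_rw [sum_add_distrib, ← mul_sum]
    _ ≤ (D + (1 + θ) * Y a' s (4 * m) J) + 4 * h * (C * (BW * (Y a s m (4 * J) / ρ))) +
        4 * a 0 / h * (2 * W) := by
        have e1 : ∑ j ∈ range J, ∑ r ∈ range 4, a (s ((4 * j + r) * m) - h * q j) ≤
            D + (1 + θ) * Y a' s (4 * m) J := by
          rw [sum_sub_distrib, ← mul_sum] at hd
          have hq' : Monotone fun j => h * (q j : ℝ) := fun i j hij => by
            have h2 : (q i : ℝ) ≤ q j := by exact_mod_cast hq hij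
            exact mul_le_mul_of_nonneg_left h2 hh.le
          have e2 := le_Y ha'.le0 (s := s) (m := 4 * m) (N := J) hq'
          unfold LT at e2
          have e3 : ∑ j ∈ range J, a' (s (4 * j * m) - h * q j) =
              ∑ i ∈ range J, a' (s (i * (4 * m)) - h * (q i : ℝ)) := by
            refine sum_congr rfl fun j _ => ?_
            congr 3
            ring
          rw [e3] at hd
          have e4 : (1 + θ) * ∑ i ∈ range J, a' (s (i * (4 * m)) - h * (q i : ℝ)) ≤
              (1 + θ) * Y a' s (4 * m) J := by gcongr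
          linarith
        have e5 := err_sum ha hρ0 s m (4 * J) p hp
        gcongr
    _ = _ := by ring

end Pool.Agent.W844.LIS
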