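import Pool.Agent.W844.LIS.Prob

set_option autoImplicit false
set_option linter.unusedSectionVars false
set_option linter.unusedVariables false

open MeasureTheory ProbabilityTheory Filter Finset
open scoped Topology ENNReal

namespace Pool.Agent.W844.LIS

variable {Ω : Type*} [mΩ : MeasurableSpace Ω] {μ : Measure Ω} {X : ℕ → Ω → ℝ}

theorem one_sub_cos_le (u : ℝ) : 1 - Real.cos u ≤ |u| := by
  have h1 : Real.cos u = 1 - 2 * Real.sin (u / 2) ^ 2 := by
    have := Real.cos_two_mul (u / 2)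
    have h2 := Real.sin_sq_add_cos_sq (u / 2)
    have h3 : 2 * (u / 2) = u := by ring
    rw [h3] at this
    nlinarith
  have h4 : |Real.sin (u / 2)| ≤ |u / 2| := Real.abs_sin_le_abs (x := u / 2)
  have h5 : |Real.sin (u / 2)| ≤ 1 := Real.abs_sin_le_one _
  have h6 : Real.sin (u / 2) ^ 2 = |Real.sin (u / 2)| * |Real.sin (u / 2)| := by
    rw [← sq, sq_abs]
  have h7 : |u / 2| = |u| / 2 := by rw [abs_div]; norm_num
  rw [h1, h6]
  have := abs_nonneg (Real.sin (u / 2))
  nlinarith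

/-- `E cos (S_n / sqrt (n v))` tends to `exp (-1/2)` -/
theorem Walk.tendsto_cos (h : Walk μ X) :
    Tendsto (fun n : ℕ => ∫ ω, Real.cos ((√n)⁻¹ * ((√(vr μ X))⁻¹ * S X n ω)) ∂μ) atTop
      (𝓝 (Real.exp (-1 / 2))) := by
  have := h.prob
  set σ := √(vr μ X) with hσ
  have hσ0 : 0 < σ := Real.sqrt_pos.2 h.var
  let Y : ℕ → Ω → ℝ := fun i ω => σ⁻¹ * X i ω
  have hYm : ∀ i, Measurable (Y i) := fun i => (h.meas i).const_mul _
  have hYi : iIndepFun Y μ := h.indep.comp (fun _ x => σ⁻¹ * x) (fun _ => by fun_prop)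
  have hYd : ∀ i, IdentDistrib (Y i) (Y 0) μ μ := fun i =>
    (h.ident i).comp (u := fun x => σ⁻¹ * x) (by fun_prop)
  have h0 : μ[Y 0] = 0 := by
    show ∫ ω, σ⁻¹ * X 0 ω ∂μ = 0
    rw [integral_const_mul, h.mean, mul_zero]
  have h1 : μ[Y 0 ^ 2] = 1 := by
    show ∫ ω, (σ⁻¹ * X 0 ω) ^ 2 ∂μ = 1
    simp_rw [mul_pow]
    rw [integral_const_mul]
    have : ∫ ω, (X 0 ω) ^ 2 ∂μ = σ ^ 2 := by
      rw [hσ, Real.sq_sqrt]; · rfl
      · exact h.var.le
    rw [this]
    field_simp
  have h2 := tendsto_charFun_inv_sqrt_mul_pow (P := μ) (hYm 0).aemeasurable h0 h1 1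
  have h3 : ∀ n : ℕ, (charFun (μ.map (Y 0)) ((√n)⁻¹ * 1)) ^ n =
      charFun (μ.map (fun ω ↦ (√n)⁻¹ * ∑ k ∈ Finset.range n, Y k ω)) 1 := fun n =>
    (charFun_inv_sqrt_mul_sum hYi hYd).symm
  simp only [h3] at h2
  have h4 := (Complex.continuous_re.tendsto _).comp h2
  have h5 : (Complex.exp (-((1 : ℝ) : ℂ) ^ 2 / 2)).re = Real.exp (-1 / 2) := by
    have : (-((1 : ℝ) : ℂ) ^ 2 / 2) = ((-1 / 2 : ℝ) : ℂ) := by push_cast; ring
    rw [this, ← Complex.ofReal_exp, Complex.ofReal_re]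
  rw [h5] at h4
  refine h4.congr fun n => ?_
  have hm : Measurable (fun ω ↦ (√n)⁻¹ * ∑ k ∈ Finset.range n, Y k ω) :=
    (Finset.measurable_sum _ fun i _ => hYm i).const_mul _
  simp only [Function.comp]
  rw [charFun_apply_real, integral_map hm.aemeasurable (by fun_prop)]
  have hint : Integrable (fun ω => Complex.exp ((1 : ℝ) * ((√n)⁻¹ * ∑ k ∈ Finset.range n, Y k ω : ℝ) *
      Complex.I)) μ := by
    refine Integrable.of_bound (C := 1) (by fun_prop) (Filter.Eventually.of_forall fun ω => ?_)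
    rw [← Complex.ofReal_mul, Complex.norm_exp_ofReal_mul_I]
  have h6 := integral_re hint
  rw [show (∫ ω, Complex.exp ((1 : ℝ) * ((√n)⁻¹ * ∑ k ∈ Finset.range n, Y k ω : ℝ) * Complex.I) ∂μ).re =
    RCLike.re (∫ ω, Complex.exp ((1 : ℝ) * ((√n)⁻¹ * ∑ k ∈ Finset.range n, Y k ω : ℝ) * Complex.I) ∂μ)
    from rfl, ← h6]
  refine integral_congr_ae (Filter.Eventually.of_forall fun ω => ?_)
  simp only
  rw [← Complex.ofReal_mul, one_mul]
  show (Complex.exp _).re = _
  rw [Complex.exp_ofReal_mul_I_re]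
  congr 2
  show ∑ k ∈ range n, σ⁻¹ * X k ω = _
  rw [← Finset.mul_sum]
  rfl

theorem Walk.A_mono (h : Walk μ X) (a m : ℕ) (x : ℝ) : A μ X a x ≤ A μ X (a + m) x := by
  have := h.prob
  have h1 := h.A_add a m x
  have h2 : 0 ≤ ∫ ω, A μ X m (x + S X a ω) ∂μ := integral_nonneg fun ω => h.A_nonneg _ _
  linarith

theorem Walk.A_one_pos (h : Walk μ X) : 0 < A μ X 1 0 := by
  have := h.prob
  unfold A
  simp only [zero_add, abs_zero, sub_zero]
  have h1 : ∀ ω, S X 1 ω = X 0 ω := fun ω => by simp [S]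
  simp only [h1]
  have h0 : 0 ≤ ∫ ω, |X 0 ω| ∂μ := integral_nonneg fun ω => abs_nonneg _
  rcases h0.eq_or_lt with h2 | h2
  · exfalso
    have h3 := (integral_eq_zero_iff_of_nonneg (μ := μ) (f := fun ω => |X 0 ω|)
      (fun ω => abs_nonneg (X 0 ω)) (h.int_X 0).abs).1 h2.symm
    have h4 : ∫ ω, (X 0 ω) ^ 2 ∂μ = 0 := by
      rw [← integral_zero Ω ℝ (μ := μ)]
      refine integral_congr_ae ?_
      filter_upwards [h3] with ω hω
      have : |X 0 ω| = 0 := hω
      rw [abs_eq_zero] at this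
      rw [this]; norm_num
    exact h.var.ne' h4
  · exact h2

/-- the lower bound `E |S_n| ≥ c sqrt n` -/
theorem Walk.lower (h : Walk μ X) : ∃ c : ℝ, 0 < c ∧ ∀ n : ℕ, 1 ≤ n → c * √n ≤ A μ X n 0 := by
  have := h.prob
  set σ := √(vr μ X) with hσ
  have hσ0 : 0 < σ := Real.sqrt_pos.2 h.var
  have h1 := h.tendsto_cos
  have h2 : Real.exp (-1 / 2) < 7 / 10 := by
    have h3 : Real.exp (-1 / 2) ^ 2 = (Real.exp 1)⁻¹ := by
      rw [← Real.exp_nat_mul, ← Real.exp_neg]; congr 1; norm_num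
    have h4 : (2.7 : ℝ) < Real.exp 1 := by have := Real.exp_one_gt_d9; linarith
    have h5 : (Real.exp 1)⁻¹ < (2.7 : ℝ)⁻¹ := inv_strictAnti₀ (by norm_num) h4
    have h6 : (2.7 : ℝ)⁻¹ < (7 / 10) ^ 2 := by norm_num
    have h7 : Real.exp (-1 / 2) ^ 2 < (7 / 10) ^ 2 := by rw [h3]; linarith
    exact lt_of_pow_lt_pow_left₀ 2 (by norm_num) h7
  obtain ⟨N, hN⟩ := eventually_atTop.1 (h1.eventually_lt_const h2)
  have hA1 := h.A_one_pos
  refine ⟨min (3 / 10 * σ) (A μ X 1 0 / √(N + 1)), ?_, fun n hn => ?_⟩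
  · have : (0 : ℝ) < √(N + 1) := Real.sqrt_pos.2 (by positivity)
    exact lt_min (by positivity) (by positivity)
  · have hn0 : (0 : ℝ) < √n := Real.sqrt_pos.2 (by exact_mod_cast hn)
    by_cases hNn : N ≤ n
    · have h3 := hN n hNn
      have h4 : √n * σ * (1 - ∫ ω, Real.cos ((√n)⁻¹ * (σ⁻¹ * S X n ω)) ∂μ) ≤ A μ X n 0 := by
        have hi : Integrable (fun ω => Real.cos ((√n)⁻¹ * (σ⁻¹ * S X n ω))) μ := by
          have := h.meas_S n
          refine Integrable.of_bound (C := 1) (by fun_prop) (Filter.Eventually.of_forall fun ω => ?_)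
          exact Real.abs_cos_le_one _
        have h5 : ∫ ω, (√n * σ * (1 - Real.cos ((√n)⁻¹ * (σ⁻¹ * S X n ω)))) ∂μ ≤
            ∫ ω, |0 + S X n ω| ∂μ := by
          refine integral_mono (((integrable_const _).sub hi).const_mul _) (h.int_abs n 0) fun ω => ?_
          simp only [zero_add]
          have h6 := one_sub_cos_le ((√n)⁻¹ * (σ⁻¹ * S X n ω))
          rw [abs_mul, abs_mul, abs_inv, abs_inv, abs_of_pos hn0, abs_of_pos hσ0] at h6
          calc √n * σ * (1 - Real.cos ((√n)⁻¹ * (σ⁻¹ * S X n ω)))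
              ≤ √n * σ * ((√n)⁻¹ * (σ⁻¹ * |S X n ω|)) := by gcongr
            _ = |S X n ω| := by field_simp
        rw [integral_const_mul, integral_sub (integrable_const _) hi] at h5
        simp only [integral_const, probReal_univ, one_smul] at h5
        unfold A
        simpa using h5
      calc min (3 / 10 * σ) (A μ X 1 0 / √(N + 1)) * √n ≤ (3 / 10 * σ) * √n := by
            gcongr; exact min_le_left _ _
        _ = √n * σ * (1 - 7 / 10) := by ring
        _ ≤ √n * σ * (1 - ∫ ω, Real.cos ((√n)⁻¹ * (σ⁻¹ * S X n ω)) ∂μ) := by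
            gcongr
        _ ≤ _ := h4
    · push Not at hNn
      have h3 : A μ X 1 0 ≤ A μ X n 0 := by
        have := h.A_mono 1 (n - 1) 0
        rwa [Nat.add_sub_cancel' hn] at this
      have h4 : √n ≤ √((N : ℝ) + 1) := Real.sqrt_le_sqrt (by
        have : (n : ℝ) < N := by exact_mod_cast hNn
        linarith)
      have h5 : (0 : ℝ) < √((N : ℝ) + 1) := Real.sqrt_pos.2 (by positivity)
      calc min (3 / 10 * σ) (A μ X 1 0 / √(N + 1)) * √n ≤ (A μ X 1 0 / √(N + 1)) * √(N + 1) := by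
            gcongr; exact min_le_right _ _
        _ = A μ X 1 0 := by field_simp
        _ ≤ _ := h3

/-! ### Maximal inequality -/

/-- the filtration of the walk -/
def Walk.filt (h : Walk μ X) : Filtration ℕ mΩ where
  seq := past X
  mono' := by
    intro i j hij
    refine iSup₂_le fun k hk => ?_
    have hk' : k < i := hk
    exact le_iSup₂ (f := fun i (_ : i ∈ {i : ℕ | i < j}) =>
      MeasurableSpace.comap (X i) inferInstance) k (show k < j by omega)
  le' := h.past_le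

theorem Walk.submart (h : Walk μ X) : Submartingale (fun n ω => |S X n ω|) h.filt μ := by
  have := h.prob
  refine submartingale_nat ?_ (fun n => (h.int_S n).abs) fun n => ?_
  · intro n
    have h1 : Measurable[past X n] (S X n) := meas_past_S le_rfl
    have h2 : Measurable[past X n] (fun ω => |S X n ω|) := continuous_abs.measurable.comp h1
    exact h2.stronglyMeasurable
  · have hm : Measurable[past X n] (S X n) := meas_past_S le_rfl
    have h1 : μ[S X (n + 1) | past X n] =ᵐ[μ] S X n := by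
      have e : S X (n + 1) = S X n + X n := by
        funext ω; exact S_succ n ω
      rw [e]
      refine (condExp_add (h.int_S n) (h.int_X n) _).trans ?_
      have e1 : μ[S X n | past X n] = S X n :=
        condExp_of_stronglyMeasurable (h.past_le n) hm.stronglyMeasurable (h.int_S n)
      have e2 : μ[X n | past X n] =ᵐ[μ] fun _ => ∫ ω, X n ω ∂μ := by
        refine condExp_indep_eq (m₁ := MeasurableSpace.comap (X n) inferInstance)
          (h.meas n).comap_le (h.past_le n) (comap_measurable (X n)).stronglyMeasurable ?_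
        refine (indep_of_indep_of_le_right (h.indep_past_fut n) ?_).symm
        exact (meas_fut_X (le_refl n)).comap_le
      rw [e1]
      filter_upwards [e2] with ω hω
      simp [hω, h.mean_X n]
    have h2 := norm_condExp_le (μ := μ) (m := past X n) (S X (n + 1))
    filter_upwards [h1, h2] with ω hω hω2
    rw [hω] at hω2
    exact hω2

theorem Walk.maximal (h : Walk μ X) (n : ℕ) (w : ℝ) (hw : 0 < w) :
    μ {ω | ∃ t ≤ n, w ≤ |S X t ω|} ≤ ENNReal.ofReal (A μ X n 0 / w) := by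
  have := h.prob
  have h1 := maximal_ineq h.submart (fun n ω => abs_nonneg (S X n ω)) (ε := w.toNNReal) n
  have h2 : {ω | ∃ t ≤ n, w ≤ |S X t ω|} ⊆
      {ω | ((w.toNNReal : NNReal) : ℝ) ≤ (range (n + 1)).sup' nonempty_range_add_one fun k => |S X k ω|} := by
    rintro ω ⟨t, ht, hwt⟩
    show ((w.toNNReal : NNReal) : ℝ) ≤ _
    rw [Real.coe_toNNReal _ hw.le]
    refine hwt.trans ?_
    exact Finset.le_sup' (fun k => |S X k ω|) (mem_range.2 (Nat.lt_succ_of_le ht))
  have h3 : ENNReal.ofReal (∫ ω in {ω | ((w.toNNReal : NNReal) : ℝ) ≤ (range (n + 1)).sup'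
      nonempty_range_add_one fun k => |S X k ω|}, |S X n ω| ∂μ) ≤ ENNReal.ofReal (A μ X n 0) := by
    refine ENNReal.ofReal_le_ofReal ?_
    unfold A
    simp only [zero_add, abs_zero, sub_zero]
    exact setIntegral_le_integral (h.int_S n).abs (Filter.Eventually.of_forall fun ω => abs_nonneg _)
  have h4 : (w.toNNReal : ℝ≥0∞) * μ {ω | ∃ t ≤ n, w ≤ |S X t ω|} ≤ ENNReal.ofReal (A μ X n 0) :=
    (mul_le_mul_right (measure_mono h2) _).trans (h1.trans h3)
  rw [ENNReal.ofReal_div_of_pos hw, ENNReal.le_div_iff_mul_le (Or.inl (by simpa using hw))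
    (Or.inl ENNReal.ofReal_ne_top), mul_comm]
  exact h4

end Pool.Agent.W844.LIS
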