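import Pool.Agent.W844.LIS.Chain

set_option autoImplicit false
set_option linter.unusedSectionVars false
set_option linter.unusedVariables false

open MeasureTheory ProbabilityTheory Filter Finset
open scoped Topology ENNReal

namespace Pool.Agent.W844.LIS

variable {Ω : Type*} [mΩ : MeasurableSpace Ω] {μ : Measure Ω} {X : ℕ → Ω → ℝ}

theorem sqrt_four_pow (k : ℕ) : √(((4 ^ k : ℕ) : ℝ)) = 2 ^ k := by
  have : (((4 ^ k : ℕ) : ℝ)) = ((2 : ℝ) ^ k) ^ 2 := by
    push_cast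
    rw [← pow_mul, mul_comm, pow_mul]; norm_num
  rw [this, Real.sqrt_sq (by positivity)]

/-- the bad event at scale `k` -/
def badEv (μ : Measure Ω) (X : ℕ → Ω → ℝ) (σ : ℝ) (K k : ℕ) : Set Ω :=
  {ω | ∃ q : ℕ → ℤ, Monotone q ∧ (∀ j, |q j| ≤ ((K ^ 2 * 2 ^ (K - k) : ℕ) : ℤ)) ∧
    28 * σ * K ^ 4 * 2 ^ K ≤ FG μ X (4 ^ k) (1 / K) (fun j => (2 ^ k / K : ℝ) * q j)
      (4 ^ (K - (k + 1))) ω}

theorem Walk.meas_badEv (h : Walk μ X) {σ : ℝ} (hσ : 0 < σ) (hσ2 : ∀ m : ℕ, A μ X m 0 ≤ σ * √m)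
    {K k : ℕ} (hk : k < K) :
    μ (badEv μ X σ K k) ≤ ENNReal.ofReal (Real.exp (-K)) := by
  have hK : 1 ≤ K := by omega
  have hK0 : (0 : ℝ) < K := by exact_mod_cast hK
  have hK1 : (1 : ℝ) ≤ K := by exact_mod_cast hK
  set Q : ℕ := K ^ 2 * 2 ^ (K - k) with hQ
  set s : ℝ := 1 / (4 * σ * K * 2 ^ k) with hs
  set u : ℝ := 7 * K * Q with hu
  have hs0 : 0 < s := by positivity
  have hQ1 : (1 : ℝ) ≤ Q := by
    have : 1 ≤ Q := Nat.one_le_iff_ne_zero.2 (by positivity)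
    exact_mod_cast this
  have hsθ : s * (4 * A μ X (4 ^ k) 0) ≤ 1 / K := by
    have h1 := hσ2 (4 ^ k)
    rw [sqrt_four_pow] at h1
    calc s * (4 * A μ X (4 ^ k) 0) ≤ s * (4 * (σ * 2 ^ k)) := by gcongr
      _ = 1 / K := by rw [hs]; field_simp
  have hus : u / s = 28 * σ * K ^ 4 * 2 ^ K := by
    have e : (2 : ℝ) ^ K = 2 ^ (K - k) * 2 ^ k := by rw [← pow_add]; congr 1; omega
    rw [hu, hs, hQ, e]
    push_cast
    field_simp
    ring
  have hθ1 : (1 : ℝ) / K ≤ 1 := by rw [div_le_one hK0]; exact hK1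
  have h1 := h.dev_all (4 ^ k) s (1 / K) hs0 hθ1 hsθ (4 ^ (K - (k + 1))) Q (2 ^ k / K : ℝ) u
  rw [hus] at h1
  refine h1.trans (ENNReal.ofReal_le_ofReal ?_)
  -- counting
  have h2 : (((4 ^ (K - (k + 1)) : ℕ) : ℝ) + 1) ≤ Real.exp (2 * K) := by
    have h3 : (((4 ^ (K - (k + 1)) : ℕ) : ℝ) + 1) ≤ 4 ^ K := by
      have h4 : 4 ^ (K - (k + 1)) + 1 ≤ 4 ^ K := by
        have h5 : 4 ^ (K - (k + 1)) ≤ 4 ^ (K - 1) := Nat.pow_le_pow_right (by norm_num) (by omega)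
        have h6 : 4 ^ K = 4 * 4 ^ (K - 1) := by
          rw [← pow_succ']; congr 1; omega
        have h7 : 1 ≤ 4 ^ (K - 1) := Nat.one_le_pow _ _ (by norm_num)
        omega
      exact_mod_cast h4
    have h8 : (4 : ℝ) ≤ Real.exp 2 := by
      have h9 : Real.exp 2 = Real.exp 1 * Real.exp 1 := by rw [← Real.exp_add]; norm_num
      have := Real.exp_one_gt_d9
      rw [h9]; nlinarith
    calc (((4 ^ (K - (k + 1)) : ℕ) : ℝ) + 1) ≤ 4 ^ K := h3
      _ ≤ Real.exp 2 ^ K := by gcongr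
      _ = Real.exp (2 * K) := by rw [← Real.exp_nat_mul]; congr 1; ring
  calc (((4 ^ (K - (k + 1)) : ℕ) : ℝ) + 1) ^ (2 * Q + 1) * Real.exp (-u)
      ≤ Real.exp (2 * K) ^ (2 * Q + 1) * Real.exp (-u) := by gcongr
    _ = Real.exp ((2 * Q + 1) * (2 * K) - u) := by
        rw [← Real.exp_nat_mul, ← Real.exp_add]
        congr 1
        push_cast
        ring
    _ ≤ Real.exp (-K) := by
        rw [Real.exp_le_exp, hu]
        nlinarith

/-- on the good event the longest increasing subsequence is short -/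
theorem Walk.good_event (h : Walk μ X) {σ c : ℝ} (hσ : 0 < σ)
    (hσ2 : ∀ m : ℕ, A μ X m 0 ≤ σ * √m) (hc0 : 0 < c) (hc : ∀ n : ℕ, 1 ≤ n → c * √n ≤ A μ X n 0)
    {K : ℕ} (hK : 1 ≤ K) (hKc : 24 / c ≤ K)
    (hKC : 2 * (12 / c * ((1 + 36 * vr μ X / c ^ 2) * BW)) ≤ K) {ω : Ω}
    (h1 : ∀ t ≤ 4 ^ K, |S X t ω| < K * 2 ^ K) (h2 : ∀ k < K, ω ∉ badEv μ X σ K k) :
    (lis (fun t => S X t ω) (4 ^ K) : ℝ) ≤
      (Real.exp (2 * (12 / c * ((1 + 36 * vr μ X / c ^ 2) * BW)) + 1) * (73 * σ) / A μ X 1 0) *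
        (K ^ 5 * 2 ^ K) := by
  have hK0 : (0 : ℝ) < K := by exact_mod_cast hK
  have hK1 : (1 : ℝ) ≤ K := by exact_mod_cast hK
  have hv : 0 < vr μ X := h.var
  have hA1 := h.A_one_pos
  set C := 12 / c * ((1 + 36 * vr μ X / c ^ 2) * BW) with hC
  have hBW := BW_nonneg
  have hC0 : 0 ≤ C := by positivity
  set s : ℕ → ℝ := fun t => S X t ω with hs
  have hgood : ∀ m : ℕ, 1 ≤ m → Good (A μ X m) (m * vr μ X) (c / 3 * √m) := h.good hc0 hc
  set y : ℕ → ℝ := fun k => Y (A μ X (4 ^ k)) s (4 ^ k) (4 ^ (K - k)) with hy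
  have hp4 : ∀ k : ℕ, 1 ≤ 4 ^ k := fun k => Nat.one_le_pow _ _ (by norm_num)
  have hynn : ∀ k, 0 ≤ y k := by
    intro k
    refine le_trans ?_ (le_Y (hgood _ (hp4 k)).le0 (g := fun _ => 0) monotone_const)
    exact sum_nonneg fun i _ => h.A_nonneg _ _
  have hstep : ∀ k < K, y k ≤ 36 * σ * K ^ 4 * 2 ^ K + (1 + 1 / (K : ℝ)) * y (k + 1) +
      C / K * y k := by
    intro k hk
    have hg := hgood _ (hp4 k)
    have hg' := hgood _ (hp4 (k + 1))
    rw [sqrt_four_pow] at hg hg'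
    have hN : 4 ^ (K - k) = 4 * 4 ^ (K - (k + 1)) := by
      rw [← pow_succ']; congr 1; omega
    have e2K : (2 : ℝ) ^ K = 2 ^ (K - k) * 2 ^ k := by rw [← pow_add]; congr 1; omega
    have hst := step (s := s) (m := 4 ^ k) (J := 4 ^ (K - (k + 1))) (Q := K ^ 2 * 2 ^ (K - k))
      (W := K * 2 ^ K) (h := 2 ^ k / K) (θ := 1 / K) (D := 28 * σ * K ^ 4 * 2 ^ K) hg hg'
      (by positivity) (by positivity)
      (by
        rw [div_le_iff₀ hc0] at hKc
        have : 8 * (2 ^ k / (K : ℝ)) = (24 / K) * (2 ^ k / 3) := by ring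
        rw [this]
        have h3 : 24 / (K : ℝ) ≤ c := by rw [div_le_iff₀ hK0]; linarith
        calc (24 / (K : ℝ)) * (2 ^ k / 3) ≤ c * (2 ^ k / 3) := by gcongr
          _ = _ := by ring)
      (by positivity) (by positivity)
      (by rw [e2K]; push_cast; field_simp)
      (by
        intro i hi
        refine (h1 _ ?_).le
        calc i * 4 ^ k ≤ (4 * 4 ^ (K - (k + 1))) * 4 ^ k := Nat.mul_le_mul_right _ hi.le
          _ = 4 ^ (K - k) * 4 ^ k := by rw [hN]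
          _ = 4 ^ K := by rw [← pow_add]; congr 1; omega)
      (by
        intro q hq hqb
        have h3 := h2 k hk
        unfold badEv at h3
        by_contra hcon
        push Not at hcon
        refine h3 ⟨q, hq, hqb, ?_⟩
        have e : 4 * 4 ^ k = 4 ^ (k + 1) := (pow_succ' 4 k).symm
        unfold FG
        rw [e]
        exact hcon.le)
    have e : 4 * 4 ^ k = 4 ^ (k + 1) := (pow_succ' 4 k).symm
    rw [e, ← hN] at hst
    have hA0 := hσ2 (4 ^ k)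
    rw [sqrt_four_pow] at hA0
    have t1 : 8 * A μ X (4 ^ k) 0 * (K * 2 ^ K) / (2 ^ k / (K : ℝ)) ≤ 8 * σ * K ^ 4 * 2 ^ K := by
      calc 8 * A μ X (4 ^ k) 0 * (K * 2 ^ K) / (2 ^ k / (K : ℝ))
          ≤ 8 * (σ * 2 ^ k) * (K * 2 ^ K) / (2 ^ k / (K : ℝ)) := by gcongr
        _ = 8 * σ * K ^ 2 * 2 ^ K := by field_simp
        _ ≤ 8 * σ * K ^ 4 * 2 ^ K := by
            have : (K : ℝ) ^ 2 ≤ K ^ 4 := pow_le_pow_right₀ hK1 (by norm_num)
            gcongr
    have t2 : 4 * (2 ^ k / (K : ℝ)) * ((1 + 4 * (((4 ^ k : ℕ) : ℝ) * vr μ X) / (c / 3 * 2 ^ k) ^ 2) *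
        (BW * (Y (A μ X (4 ^ k)) s (4 ^ k) (4 ^ (K - k)) / (c / 3 * 2 ^ k)))) = C / K * y k := by
      have e4 : (((4 ^ k : ℕ) : ℝ)) = (2 ^ k : ℝ) ^ 2 := by
        push_cast
        rw [← pow_mul, mul_comm, pow_mul]; norm_num
      rw [e4, hC]
      have : (2 : ℝ) ^ k ≠ 0 := by positivity
      show _ = _ * Y (A μ X (4 ^ k)) s (4 ^ k) (4 ^ (K - k))
      field_simp
      ring
    rw [t2] at hst
    have t3 : y k ≤ 8 * A μ X (4 ^ k) 0 * (K * 2 ^ K) / (2 ^ k / (K : ℝ)) + 28 * σ * K ^ 4 * 2 ^ K +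
      (1 + 1 / (K : ℝ)) * y (k + 1) + C / K * y k := hst
    linarith
  have hch := chain hK hC0 hKC (by positivity) hynn hstep
  have hyK : y K ≤ σ * 2 ^ K := by
    refine Y_le fun g hg => ?_
    unfold LT
    rw [Nat.sub_self, pow_zero, sum_range_one]
    have h3 := h.A_le (4 ^ K) (s (0 * 4 ^ K) - g 0)
    have h4 := hσ2 (4 ^ K)
    rw [sqrt_four_pow] at h4
    linarith
  refine lis_le fun I hI hIm => ?_
  have h3 := card_le_Y (hgood 1 le_rfl) (s := s) hI hIm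
  have e0 : y 0 = Y (A μ X 1) s 1 (4 ^ K) := by simp [hy]
  rw [← e0] at h3
  have h4 : (I.card : ℝ) * A μ X 1 0 ≤ Real.exp (2 * C + 1) * (73 * σ) * (K ^ 5 * 2 ^ K) := by
    refine h3.trans (hch.trans ?_)
    have h5 : σ * 2 ^ K ≤ σ * (K ^ 5 * 2 ^ K) := by
      have h7 : (1 : ℝ) ≤ K ^ 5 := one_le_pow₀ hK1
      calc σ * 2 ^ K = σ * (1 * 2 ^ K) := by ring
        _ ≤ _ := by gcongr
    calc Real.exp (2 * C + 1) * (y K + 2 * (36 * σ * K ^ 4 * 2 ^ K) * K)
        ≤ Real.exp (2 * C + 1) * (σ * (K ^ 5 * 2 ^ K) + 2 * (36 * σ * K ^ 4 * 2 ^ K) * K) := by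
          gcongr; linarith
      _ = _ := by ring
  rw [div_mul_eq_mul_div, le_div_iff₀ hA1]
  exact h4

theorem tendsto_clog : Tendsto (fun n : ℕ => Nat.clog 4 n) atTop atTop := by
  refine tendsto_atTop.2 fun b => ?_
  filter_upwards [eventually_gt_atTop (4 ^ b)] with n hn
  by_contra hc
  push Not at hc
  have h1 : n ≤ 4 ^ Nat.clog 4 n := Nat.le_pow_clog (by norm_num) n
  have h2 : 4 ^ Nat.clog 4 n ≤ 4 ^ b := Nat.pow_le_pow_right (by norm_num) hc.le
  omega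

theorem clog_bounds : ∀ᶠ n : ℕ in atTop, ((Nat.clog 4 n : ℕ) : ℝ) ≤ Real.log n ∧
    (2 : ℝ) ^ Nat.clog 4 n ≤ 2 * √n := by
  have h0 : Tendsto (fun n : ℕ => Real.log n) atTop atTop :=
    Real.tendsto_log_atTop.comp tendsto_natCast_atTop_atTop
  filter_upwards [eventually_ge_atTop 2, h0.eventually_ge_atTop 4] with n hn hlog
  set K := Nat.clog 4 n with hK
  have hKpos : 1 ≤ K := by
    rw [hK]
    exact Nat.clog_pos (by norm_num) hn
  have h1 : 4 ^ (K - 1) < n := Nat.pow_pred_clog_lt_self (by norm_num) hn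
  have h2 : (4 : ℝ) ^ (K - 1) < n := by exact_mod_cast h1
  have hn0 : (0 : ℝ) < n := by positivity
  constructor
  · have h3 : Real.log ((4 : ℝ) ^ (K - 1)) < Real.log n := Real.log_lt_log (by positivity) h2
    rw [Real.log_pow] at h3
    have h4 : (4 : ℝ) / 3 ≤ Real.log 4 := by
      have : Real.log 4 = 2 * Real.log 2 := by
        rw [show (4 : ℝ) = 2 ^ 2 by norm_num, Real.log_pow]; norm_num
      rw [this]
      have := Real.log_two_gt_d9
      linarith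
    have h5 : ((K - 1 : ℕ) : ℝ) = (K : ℝ) - 1 := by rw [Nat.cast_sub hKpos]; simp
    rw [h5] at h3
    have h6 : (0 : ℝ) ≤ (K : ℝ) - 1 := by
      have : (1 : ℝ) ≤ K := by exact_mod_cast hKpos
      linarith
    nlinarith
  · have h3 : ((2 : ℝ) ^ K) ^ 2 ≤ (2 * √n) ^ 2 := by
      rw [mul_pow, Real.sq_sqrt hn0.le, ← pow_mul, mul_comm K 2, pow_mul]
      have e : (4 : ℝ) ^ K = 4 * 4 ^ (K - 1) := by rw [← pow_succ']; congr 1; omega
      norm_num
      rw [e]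
      linarith
    exact (pow_le_pow_iff_left₀ (by positivity) (by positivity) (by norm_num)).1 h3

/-- the main theorem -/
theorem Walk.main (h : Walk μ X) (a : ℝ) (ha : 5 < a) :
    Tendsto (fun n : ℕ => μ {ω | (lis (fun t => S X t ω) n : ℝ) ≤ √n * (Real.log n) ^ a})
      atTop (𝓝 1) := by
  have := h.prob
  obtain ⟨c, hc0, hc⟩ := h.lower
  set σ := √(vr μ X) with hσdef
  have hσ : 0 < σ := Real.sqrt_pos.2 h.var
  have hσ2 : ∀ m : ℕ, A μ X m 0 ≤ σ * √m := h.A_zero_le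
  have hA1 := h.A_one_pos
  set C₃ := Real.exp (2 * (12 / c * ((1 + 36 * vr μ X / c ^ 2) * BW)) + 1) * (73 * σ) / A μ X 1 0
    with hC₃
  have hC₃0 : 0 ≤ C₃ := by positivity
  -- the error
  let ε : ℕ → ℝ≥0∞ := fun n => ENNReal.ofReal (σ / (Nat.clog 4 n : ℝ) +
    (Nat.clog 4 n : ℝ) * Real.exp (-(Nat.clog 4 n : ℝ)))
  have hε : Tendsto ε atTop (𝓝 0) := by
    rw [← ENNReal.ofReal_zero]
    refine ENNReal.tendsto_ofReal ?_
    have hK : Tendsto (fun n : ℕ => ((Nat.clog 4 n : ℕ) : ℝ)) atTop atTop :=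
      tendsto_natCast_atTop_atTop.comp tendsto_clog
    have e1 : Tendsto (fun x : ℝ => σ / x) atTop (𝓝 0) := tendsto_const_nhds.div_atTop tendsto_id
    have e2 : Tendsto (fun x : ℝ => x * Real.exp (-x)) atTop (𝓝 0) := by
      have := Real.tendsto_pow_mul_exp_neg_atTop_nhds_zero 1
      simpa using this
    have e3 := (e1.add e2).comp hK
    rw [add_zero] at e3
    exact e3
  have hlow : Tendsto (fun n => 1 - ε n) atTop (𝓝 1) := by
    have := ENNReal.Tendsto.sub (tendsto_const_nhds (x := (1 : ℝ≥0∞))) hε (Or.inl ENNReal.one_ne_top)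
    simpa using this
  refine tendsto_of_tendsto_of_tendsto_of_le_of_le' hlow tendsto_const_nhds ?_
    (Filter.Eventually.of_forall fun n => prob_le_one)
  have hKlarge : ∀ᶠ n : ℕ in atTop, max (24 / c)
      (2 * (12 / c * ((1 + 36 * vr μ X / c ^ 2) * BW))) ≤ ((Nat.clog 4 n : ℕ) : ℝ) :=
    (tendsto_natCast_atTop_atTop.comp tendsto_clog).eventually_ge_atTop _
  have hlog : Tendsto (fun n : ℕ => Real.log n) atTop atTop :=
    Real.tendsto_log_atTop.comp tendsto_natCast_atTop_atTop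
  have hpow : ∀ᶠ n : ℕ in atTop, 2 * C₃ ≤ (Real.log n) ^ (a - 5) :=
    ((tendsto_rpow_atTop (by linarith : (0 : ℝ) < a - 5)).comp hlog).eventually_ge_atTop _
  filter_upwards [clog_bounds, hKlarge, hpow, eventually_ge_atTop 2, hlog.eventually_ge_atTop 1]
    with n hcl hKl hp hn2 hlog1
  set K := Nat.clog 4 n with hK
  have hK1 : 1 ≤ K := by rw [hK]; exact Nat.clog_pos (by norm_num) hn2
  have hK0 : (0 : ℝ) < K := by exact_mod_cast hK1
  have hnK : n ≤ 4 ^ K := Nat.le_pow_clog (by norm_num) n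
  set B1 : Set Ω := {ω | ∃ t ≤ 4 ^ K, (K * 2 ^ K : ℝ) ≤ |S X t ω|} with hB1
  set B2 : Set Ω := ⋃ k ∈ Finset.range K, badEv μ X σ K k with hB2
  have hsub : (Set.univ : Set Ω) ⊆
      {ω | (lis (fun t => S X t ω) n : ℝ) ≤ √n * (Real.log n) ^ a} ∪ (B1 ∪ B2) := by
    intro ω _
    by_cases hω : ω ∈ B1 ∪ B2
    · exact Or.inr hω
    · left
      rw [Set.mem_union, not_or] at hω
      have g1 : ∀ t ≤ 4 ^ K, |S X t ω| < K * 2 ^ K := by
        intro t ht
        by_contra hcon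
        exact hω.1 ⟨t, ht, not_lt.1 hcon⟩
      have g2 : ∀ k < K, ω ∉ badEv μ X σ K k := by
        intro k hk hcon
        exact hω.2 (Set.mem_biUnion (Finset.mem_coe.2 (Finset.mem_range.2 hk)) hcon)
      have g3 := h.good_event hσ hσ2 hc0 hc hK1 ((le_max_left _ _).trans hKl)
        ((le_max_right _ _).trans hKl) g1 g2
      show (lis (fun t => S X t ω) n : ℝ) ≤ √n * (Real.log n) ^ a
      have g4 : (lis (fun t => S X t ω) n : ℝ) ≤ lis (fun t => S X t ω) (4 ^ K) := by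
        exact_mod_cast lis_mono _ hnK
      refine g4.trans (g3.trans ?_)
      have hlog0 : (0 : ℝ) < Real.log n := by linarith
      have e1 : (Real.log n) ^ a = (Real.log n) ^ 5 * (Real.log n) ^ (a - 5) := by
        rw [← Real.rpow_natCast, ← Real.rpow_add hlog0]
        congr 1
        push_cast; ring
      calc C₃ * (K ^ 5 * 2 ^ K) ≤ C₃ * ((Real.log n) ^ 5 * (2 * √n)) := by
            gcongr
            · exact hcl.1
            · exact hcl.2
        _ = √n * ((Real.log n) ^ 5 * (2 * C₃)) := by ring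
        _ ≤ √n * ((Real.log n) ^ 5 * (Real.log n) ^ (a - 5)) := by gcongr
        _ = _ := by rw [e1]
  have hB1m : μ B1 ≤ ENNReal.ofReal (σ / K) := by
    refine (h.maximal (4 ^ K) (K * 2 ^ K) (by positivity)).trans (ENNReal.ofReal_le_ofReal ?_)
    have h4 := hσ2 (4 ^ K)
    rw [sqrt_four_pow] at h4
    rw [div_le_div_iff₀ (by positivity) hK0]
    calc A μ X (4 ^ K) 0 * K ≤ (σ * 2 ^ K) * K := by gcongr
      _ = _ := by ring
  have hB2m : μ B2 ≤ ENNReal.ofReal (K * Real.exp (-K)) := by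
    refine (measure_biUnion_finset_le _ _).trans ?_
    calc ∑ k ∈ Finset.range K, μ (badEv μ X σ K k)
        ≤ ∑ k ∈ Finset.range K, ENNReal.ofReal (Real.exp (-K)) :=
          Finset.sum_le_sum fun k hk => h.meas_badEv hσ hσ2 (Finset.mem_range.1 hk)
      _ = ENNReal.ofReal (K * Real.exp (-K)) := by
          rw [Finset.sum_const, Finset.card_range, nsmul_eq_mul, ENNReal.ofReal_mul hK0.le,
            ENNReal.ofReal_natCast]
  have hε' : μ (B1 ∪ B2) ≤ ε n := by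
    refine (measure_union_le _ _).trans ((add_le_add hB1m hB2m).trans ?_)
    rw [← ENNReal.ofReal_add (by positivity) (by positivity)]
  have h1 : (1 : ℝ≥0∞) ≤ μ {ω | (lis (fun t => S X t ω) n : ℝ) ≤ √n * (Real.log n) ^ a} + ε n := by
    calc (1 : ℝ≥0∞) = μ Set.univ := measure_univ.symm
      _ ≤ μ ({ω | (lis (fun t => S X t ω) n : ℝ) ≤ √n * (Real.log n) ^ a} ∪ (B1 ∪ B2)) :=
          measure_mono hsub
      _ ≤ _ := (measure_union_le _ _).trans (add_le_add le_rfl hε')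
  exact tsub_le_iff_right.2 h1

end Pool.Agent.W844.LIS
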