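import Mathlib

set_option autoImplicit false
set_option linter.unusedSectionVars false
set_option linter.unusedVariables false

open MeasureTheory ProbabilityTheory Filter Finset
open scoped Topology ENNReal

namespace Pool.Agent.W844.LIS

variable {Ω : Type*} [mΩ : MeasurableSpace Ω] {μ : Measure Ω} {X : ℕ → Ω → ℝ}

/-- the partial sums -/
def S (X : ℕ → Ω → ℝ) (n : ℕ) (ω : Ω) : ℝ := ∑ i ∈ range n, X i ω

/-- a random walk with centred steps of finite positive variance -/
structure Walk (μ : Measure Ω) (X : ℕ → Ω → ℝ) : Prop where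
  prob : IsProbabilityMeasure μ
  meas : ∀ i, Measurable (X i)
  indep : iIndepFun X μ
  ident : ∀ i, IdentDistrib (X i) (X 0) μ μ
  sq : MemLp (X 0) 2 μ
  mean : ∫ ω, X 0 ω ∂μ = 0
  var : 0 < ∫ ω, (X 0 ω) ^ 2 ∂μ

theorem S_zero (ω : Ω) : S X 0 ω = 0 := by simp [S]

theorem S_succ (n : ℕ) (ω : Ω) : S X (n + 1) ω = S X n ω + X n ω := by
  simp [S, Finset.sum_range_succ]

theorem S_add (a t : ℕ) (ω : Ω) : S X (a + t) ω - S X a ω = ∑ i ∈ range t, X (a + i) ω := by
  simp [S, Finset.sum_range_add]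

theorem Walk.meas_S (h : Walk μ X) (n : ℕ) : Measurable (S X n) :=
  Finset.measurable_sum _ fun i _ => h.meas i

theorem Walk.ident_inc (h : Walk μ X) (a t : ℕ) :
    IdentDistrib (fun ω => S X (a + t) ω - S X a ω) (S X t) μ μ := by
  have := h.prob
  have h1 : IdentDistrib (fun ω => fun i => X (a + i) ω) (fun ω => fun i => X i ω) μ μ := by
    refine IdentDistrib.pi (fun i => ((h.ident (a + i)).trans (h.ident i).symm)) ?_ h.indep
    exact h.indep.precomp (add_right_injective a)
  have h2 := h1.comp (u := fun x : ℕ → ℝ => ∑ i ∈ range t, x i)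
    (Finset.measurable_sum _ fun i _ => measurable_pi_apply i)
  refine IdentDistrib.trans ?_ h2
  have : (fun ω => S X (a + t) ω - S X a ω) =
      ((fun x : ℕ → ℝ => ∑ i ∈ range t, x i) ∘ fun ω => fun i => X (a + i) ω) := by
    funext ω
    rw [S_add]; rfl
  rw [this]
  exact IdentDistrib.refl h2.aemeasurable_fst

/-- the sigma-algebra of the first `a` steps -/
@[instance_reducible]
def past (X : ℕ → Ω → ℝ) (a : ℕ) : MeasurableSpace Ω :=
  ⨆ i ∈ {i : ℕ | i < a}, MeasurableSpace.comap (X i) inferInstance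

/-- the sigma-algebra of the steps from `a` on -/
@[instance_reducible]
def fut (X : ℕ → Ω → ℝ) (a : ℕ) : MeasurableSpace Ω :=
  ⨆ i ∈ {i : ℕ | a ≤ i}, MeasurableSpace.comap (X i) inferInstance

theorem Walk.past_le (h : Walk μ X) (a : ℕ) : past X a ≤ mΩ :=
  iSup₂_le fun i _ => (h.meas i).comap_le

theorem Walk.indep_past_fut (h : Walk μ X) (a : ℕ) : Indep (past X a) (fut X a) μ := by
  refine indep_iSup_of_disjoint (fun i => (h.meas i).comap_le) h.indep.iIndep ?_
  rw [Set.disjoint_left]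
  intro i hi hi'
  have h1 : i < a := hi
  have h2 : a ≤ i := hi'
  omega

theorem meas_past_X {a i : ℕ} (hi : i < a) : Measurable[past X a] (X i) := by
  refine Measurable.mono (comap_measurable (X i)) ?_ le_rfl
  exact le_iSup₂ (f := fun i (_ : i ∈ {i : ℕ | i < a}) => MeasurableSpace.comap (X i) inferInstance)
    i hi

theorem meas_fut_X {a i : ℕ} (hi : a ≤ i) : Measurable[fut X a] (X i) := by
  refine Measurable.mono (comap_measurable (X i)) ?_ le_rfl
  exact le_iSup₂ (f := fun i (_ : i ∈ {i : ℕ | a ≤ i}) => MeasurableSpace.comap (X i) inferInstance)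
    i hi

theorem meas_past_S {a t : ℕ} (ht : t ≤ a) : Measurable[past X a] (S X t) :=
  @Finset.measurable_sum _ _ _ _ _ _ (past X a) _ _ fun i hi =>
    meas_past_X (lt_of_lt_of_le (mem_range.1 hi) ht)

theorem meas_fut_inc {a t : ℕ} : Measurable[fut X a] (fun ω => S X (a + t) ω - S X a ω) := by
  simp_rw [S_add]
  exact @Finset.measurable_sum _ _ _ _ _ _ (fut X a) _ _ fun i _ =>
    meas_fut_X (Nat.le_add_right a i)

theorem Walk.indepFun (h : Walk μ X) {a : ℕ} {α β : Type*} [MeasurableSpace α] [MeasurableSpace β]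
    {U : Ω → α} {V : Ω → β} (hU : Measurable[past X a] U) (hV : Measurable[fut X a] V) :
    IndepFun U V μ :=
  indep_of_indep_of_le_left (indep_of_indep_of_le_right (h.indep_past_fut a) hV.comap_le)
    hU.comap_le

/-- freezing -/
theorem freeze {α β : Type*} [MeasurableSpace α] [MeasurableSpace β] [IsProbabilityMeasure μ]
    {U : Ω → α} {V : Ω → β} (hU : Measurable U) (hV : Measurable V) (hi : IndepFun U V μ)
    (f : α → ℝ≥0∞) (hf : Measurable f) (g : α → β → ℝ≥0∞) (hg : Measurable (Function.uncurry g))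
    (h1 : ∀ u, ∫⁻ ω, g u (V ω) ∂μ ≤ 1) :
    ∫⁻ ω, f (U ω) * g (U ω) (V ω) ∂μ ≤ ∫⁻ ω, f (U ω) ∂μ := by
  have hm : Measurable (fun p : α × β => f p.1 * g p.1 p.2) :=
    (hf.comp measurable_fst).mul hg
  have e1 : ∫⁻ ω, f (U ω) * g (U ω) (V ω) ∂μ =
      ∫⁻ p, f p.1 * g p.1 p.2 ∂(μ.map (fun ω => (U ω, V ω))) := by
    rw [lintegral_map hm (hU.prodMk hV)]
  have : IsProbabilityMeasure (μ.map U) := Measure.isProbabilityMeasure_map hU.aemeasurable
  have : IsProbabilityMeasure (μ.map V) := Measure.isProbabilityMeasure_map hV.aemeasurable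
  rw [e1, (indepFun_iff_map_prod_eq_prod_map_map hU.aemeasurable hV.aemeasurable).1 hi,
    lintegral_prod _ hm.aemeasurable, ← lintegral_map hf hU]
  refine lintegral_mono fun u => ?_
  have hgu : Measurable (g u) := hg.comp (measurable_const.prodMk measurable_id)
  simp only
  rw [lintegral_const_mul _ hgu, lintegral_map hgu hV]
  exact mul_le_of_le_one_right' (h1 u)

/-! ### The functions `A m` -/

/-- `A m x = E |x + S_m| - |x|`: expected (soft) local time at `-x` during `m` steps -/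
noncomputable def A (μ : Measure Ω) (X : ℕ → Ω → ℝ) (m : ℕ) (x : ℝ) : ℝ :=
  ∫ ω, |x + S X m ω| ∂μ - |x|

theorem Walk.memLp_X (h : Walk μ X) (i : ℕ) : MemLp (X i) 2 μ := (h.ident i).symm.memLp_snd h.sq

theorem Walk.memLp_S (h : Walk μ X) (n : ℕ) : MemLp (S X n) 2 μ :=
  memLp_finsetSum _ fun i _ => h.memLp_X i

theorem Walk.int_S (h : Walk μ X) (n : ℕ) : Integrable (S X n) μ := by
  have := h.prob
  exact (h.memLp_S n).integrable (by norm_num)

theorem Walk.int_X (h : Walk μ X) (n : ℕ) : Integrable (X n) μ := by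
  have := h.prob
  exact (h.memLp_X n).integrable (by norm_num)

theorem Walk.mean_X (h : Walk μ X) (i : ℕ) : ∫ ω, X i ω ∂μ = 0 := by
  rw [(h.ident i).integral_eq]; exact h.mean

theorem Walk.mean_S (h : Walk μ X) (n : ℕ) : ∫ ω, S X n ω ∂μ = 0 := by
  unfold S
  rw [integral_finsetSum _ fun i _ => h.int_X i]
  exact Finset.sum_eq_zero fun i _ => h.mean_X i

theorem Walk.int_abs (h : Walk μ X) (n : ℕ) (x : ℝ) : Integrable (fun ω => |x + S X n ω|) μ := by
  have := h.prob
  exact ((integrable_const x).add (h.int_S n)).abs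

/-- the variance of one step -/
noncomputable def vr (μ : Measure Ω) (X : ℕ → Ω → ℝ) : ℝ := ∫ ω, (X 0 ω) ^ 2 ∂μ

theorem Walk.sq_S (h : Walk μ X) (n : ℕ) : ∫ ω, (S X n ω) ^ 2 ∂μ = n * vr μ X := by
  have := h.prob
  have h1 : Var[S X n; μ] = ∑ i ∈ range n, Var[X i; μ] := by
    have := IndepFun.variance_sum (s := range n) (X := X) (fun i _ => h.memLp_X i)
      (fun i _ j _ hij => h.indep.indepFun hij)
    rw [← this]
    congr 1
    funext ω
    simp [S, Finset.sum_apply]
  have h2 : ∀ i, Var[X i; μ] = vr μ X := by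
    intro i
    rw [(h.ident i).variance_eq, variance_of_integral_eq_zero (h.meas 0).aemeasurable h.mean]
    rfl
  rw [variance_of_integral_eq_zero (h.meas_S n).aemeasurable (h.mean_S n)] at h1
  simp only [h2, Finset.sum_const, card_range, nsmul_eq_mul] at h1
  exact h1

theorem Walk.A_nonneg (h : Walk μ X) (m : ℕ) (x : ℝ) : 0 ≤ A μ X m x := by
  have := h.prob
  unfold A
  have h1 : |∫ ω, (x + S X m ω) ∂μ| ≤ ∫ ω, |x + S X m ω| ∂μ := abs_integral_le_integral_abs
  rw [integral_add (integrable_const x) (h.int_S m), h.mean_S m, integral_const] at h1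
  simp at h1
  linarith

theorem Walk.A_le (h : Walk μ X) (m : ℕ) (x : ℝ) : A μ X m x ≤ A μ X m 0 := by
  have := h.prob
  unfold A
  have h1 : ∫ ω, |x + S X m ω| ∂μ ≤ ∫ ω, (|x| + |0 + S X m ω|) ∂μ := by
    refine integral_mono (h.int_abs m x) ((integrable_const _).add (h.int_abs m 0)) fun ω => ?_
    simp only [zero_add]
    exact abs_add_le _ _
  rw [integral_add (integrable_const _) (h.int_abs m 0), integral_const] at h1
  simp only [probReal_univ, one_smul] at h1
  simp only [abs_zero, sub_zero]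
  linarith

theorem Walk.A_zero_le (h : Walk μ X) (m : ℕ) : A μ X m 0 ≤ √(vr μ X) * √m := by
  have := h.prob
  unfold A
  simp only [zero_add, abs_zero, sub_zero]
  rw [← Real.sqrt_mul (by exact h.var.le)]
  refine Real.le_sqrt_of_sq_le ?_
  rw [mul_comm, ← h.sq_S m]
  have h1 : 0 ≤ Var[fun ω => |S X m ω|; μ] := variance_nonneg _ _
  rw [variance_eq_sub] at h1
  · simp only [Pi.pow_apply, sq_abs] at h1
    linarith
  · exact (h.memLp_S m).abs

theorem Walk.A_lip (h : Walk μ X) (m : ℕ) (x y : ℝ) : A μ X m x ≤ A μ X m y + 2 * |x - y| := by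
  have := h.prob
  unfold A
  have h1 : ∫ ω, |x + S X m ω| ∂μ ≤ ∫ ω, (|x - y| + |y + S X m ω|) ∂μ := by
    refine integral_mono (h.int_abs m x) ((integrable_const _).add (h.int_abs m y)) fun ω => ?_
    calc |x + S X m ω| = |(x - y) + (y + S X m ω)| := by ring_nf
      _ ≤ _ := abs_add_le _ _
  rw [integral_add (integrable_const _) (h.int_abs m y), integral_const] at h1
  simp only [probReal_univ, one_smul] at h1
  have h2 : |y| ≤ |x - y| + |x| := by
    calc |y| = |x - (x - y)| := by ring_nf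
      _ ≤ |x| + |x - y| := abs_sub _ _
      _ = _ := add_comm _ _
  linarith

/-- the expectation of `A m` after `a` steps -/
theorem Walk.A_add (h : Walk μ X) (a m : ℕ) (x : ℝ) :
    ∫ ω, A μ X m (x + S X a ω) ∂μ = A μ X (a + m) x - A μ X a x := by
  have := h.prob
  have hU : Measurable[past X a] (S X a) := meas_past_S le_rfl
  have hV : Measurable[fut X a] (fun ω => S X (a + m) ω - S X a ω) := meas_fut_inc
  have hi := h.indepFun hU hV
  have hU' := h.meas_S a
  have hV' : Measurable (fun ω => S X (a + m) ω - S X a ω) := (h.meas_S (a + m)).sub hU'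
  have e0 := (indepFun_iff_map_prod_eq_prod_map_map hU'.aemeasurable hV'.aemeasurable).1 hi
  have e1 : ∫ ω, |x + S X (a + m) ω| ∂μ =
      ∫ p : ℝ × ℝ, |x + (p.1 + p.2)| ∂(μ.map (fun ω => (S X a ω, S X (a + m) ω - S X a ω))) := by
    rw [integral_map (hU'.prodMk hV').aemeasurable]
    · refine integral_congr_ae (Filter.Eventually.of_forall fun ω => ?_)
      simp only
      congr 2
      ring
    · exact (by fun_prop : Measurable fun p : ℝ × ℝ => |x + (p.1 + p.2)|).aestronglyMeasurable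
  have i1 : Integrable (fun p : ℝ × ℝ => |x + (p.1 + p.2)|)
      (μ.map (fun ω => (S X a ω, S X (a + m) ω - S X a ω))) := by
    rw [integrable_map_measure _ (hU'.prodMk hV').aemeasurable]
    · refine (h.int_abs (a + m) x).congr (Filter.Eventually.of_forall fun ω => ?_)
      simp only [Function.comp]
      congr 1
      ring
    · exact (by fun_prop : Measurable fun p : ℝ × ℝ => |x + (p.1 + p.2)|).aestronglyMeasurable
  have : IsProbabilityMeasure (μ.map (S X a)) := Measure.isProbabilityMeasure_map hU'.aemeasurable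
  have : IsProbabilityMeasure (μ.map (fun ω => S X (a + m) ω - S X a ω)) :=
    Measure.isProbabilityMeasure_map hV'.aemeasurable
  rw [e0] at e1 i1
  rw [integral_prod _ i1] at e1
  have e2 : ∀ u : ℝ, ∫ v, |x + (u + v)| ∂(μ.map (fun ω => S X (a + m) ω - S X a ω)) =
      A μ X m (x + u) + |x + u| := by
    intro u
    rw [(h.ident_inc a m).map_eq, integral_map (h.meas_S m).aemeasurable]
    · unfold A
      rw [sub_add_cancel]
      refine integral_congr_ae (Filter.Eventually.of_forall fun ω => ?_)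
      simp only
      congr 1
      ring
    · exact (by fun_prop : Measurable fun v : ℝ => |x + (u + v)|).aestronglyMeasurable
  simp only [e2] at e1
  have i2 := i1.integral_prod_left
  simp only [e2] at i2
  have mA : AEStronglyMeasurable (fun u : ℝ => A μ X m (x + u) + |x + u|) (μ.map (S X a)) := i2.1
  rw [integral_map hU'.aemeasurable mA] at e1
  have i3 : Integrable (fun ω => A μ X m (x + S X a ω) + |x + S X a ω|) μ := by
    rw [integrable_map_measure mA hU'.aemeasurable] at i2
    exact i2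
  have i4 : Integrable (fun ω => A μ X m (x + S X a ω)) μ := by
    have := i3.sub (h.int_abs a x)
    refine this.congr (Filter.Eventually.of_forall fun ω => ?_)
    simp
  rw [integral_add i4 (h.int_abs a x)] at e1
  have e3 : A μ X (a + m) x = ∫ ω, |x + S X (a + m) ω| ∂μ - |x| := rfl
  have e4 : A μ X a x = ∫ ω, |x + S X a ω| ∂μ - |x| := rfl
  rw [e3, e4, e1]
  ring

theorem Walk.A_cont (h : Walk μ X) (m : ℕ) : Continuous (A μ X m) := by
  have : LipschitzWith 2 (A μ X m) := by
    refine LipschitzWith.of_dist_le_mul fun x y => ?_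
    rw [Real.dist_eq, Real.dist_eq, abs_le]
    have h1 := h.A_lip m x y
    have h2 := h.A_lip m y x
    rw [abs_sub_comm y x] at h2
    push_cast
    constructor <;> linarith
  exact this.continuous

theorem Walk.int_A (h : Walk μ X) (m : ℕ) {f : Ω → ℝ} (hf : Measurable f) :
    Integrable (fun ω => A μ X m (f ω)) μ := by
  have := h.prob
  refine Integrable.of_bound ((h.A_cont m).measurable.comp hf).aestronglyMeasurable
    (A μ X m 0) (Filter.Eventually.of_forall fun ω => ?_)
  rw [Real.norm_eq_abs, abs_of_nonneg (h.A_nonneg _ _)]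
  exact h.A_le _ _

theorem Walk.A_zero_idx (h : Walk μ X) (x : ℝ) : A μ X 0 x = 0 := by
  have := h.prob
  unfold A
  simp [S_zero]

/-- four blocks -/
theorem Walk.A_four (h : Walk μ X) (m : ℕ) (x : ℝ) :
    ∑ r ∈ range 4, ∫ ω, A μ X m (x + S X (r * m) ω) ∂μ = A μ X (4 * m) x := by
  have e : ∀ r : ℕ, ∫ ω, A μ X m (x + S X (r * m) ω) ∂μ =
      A μ X ((r + 1) * m) x - A μ X (r * m) x := by
    intro r
    rw [h.A_add, add_mul, one_mul]
  simp only [e]
  rw [Finset.sum_range_sub (fun r => A μ X (r * m) x)]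
  simp [h.A_zero_idx]

/-- pointwise inequality behind the refined Lipschitz bound -/
theorem pw_lip {x y w d : ℝ} (hd : 0 < d) (hxy : |x - y| < |x|) (hd1 : d ≤ |x| - |x - y|) :
    |x + w| - |x| - (|y + w| - |y|) ≤ 2 * |x - y| * (w ^ 2 / d ^ 2) := by
  have hdw : 0 ≤ w ^ 2 / d ^ 2 := by positivity
  by_cases hw : |w| < d
  · -- all signs agree
    have h0 : |x + w| - |x| - (|y + w| - |y|) ≤ 0 := by
      rcases abs_cases x with ⟨h1, h2⟩ | ⟨h1, h2⟩ <;> rcases abs_cases (x - y) with ⟨h3, h4⟩ | ⟨h3, h4⟩ <;>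
        rcases abs_cases w with ⟨h5, h6⟩ | ⟨h5, h6⟩ <;> rcases abs_cases y with ⟨h7, h8⟩ | ⟨h7, h8⟩ <;>
        rcases abs_cases (x + w) with ⟨h9, h10⟩ | ⟨h9, h10⟩ <;>
        rcases abs_cases (y + w) with ⟨h11, h12⟩ | ⟨h11, h12⟩ <;> linarith
    have : 0 ≤ 2 * |x - y| * (w ^ 2 / d ^ 2) := by positivity
    linarith
  · push Not at hw
    have h1 : 1 ≤ w ^ 2 / d ^ 2 := by
      rw [le_div_iff₀ (by positivity), one_mul, ← sq_abs w]
      exact pow_le_pow_left₀ hd.le hw 2
    have h2 : |x + w| - |x| - (|y + w| - |y|) ≤ 2 * |x - y| := by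
      have h3 : |x + w| ≤ |x - y| + |y + w| := by
        calc |x + w| = |(x - y) + (y + w)| := by ring_nf
          _ ≤ _ := abs_add_le _ _
      have h4 : |y| ≤ |x - y| + |x| := by
        calc |y| = |x - (x - y)| := by ring_nf
          _ ≤ |x| + |x - y| := abs_sub _ _
          _ = _ := add_comm _ _
      linarith
    calc _ ≤ 2 * |x - y| * 1 := by linarith
      _ ≤ _ := by gcongr

/-- refined Lipschitz bound -/
theorem Walk.A_lip2 (h : Walk μ X) (m : ℕ) {x y d : ℝ} (hd : 0 < d) (hxy : |x - y| < |x|)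
    (hd1 : d ≤ |x| - |x - y|) :
    A μ X m x ≤ A μ X m y + 2 * |x - y| * (m * vr μ X / d ^ 2) := by
  have := h.prob
  have hx : Integrable (fun ω => |x + S X m ω| - |x|) μ :=
    (h.int_abs m x).sub (integrable_const _)
  have hy : Integrable (fun ω => |y + S X m ω| - |y|) μ :=
    (h.int_abs m y).sub (integrable_const _)
  have h1 : ∫ ω, (|x + S X m ω| - |x| - (|y + S X m ω| - |y|)) ∂μ ≤
      ∫ ω, 2 * |x - y| * ((S X m ω) ^ 2 / d ^ 2) ∂μ := by
    refine integral_mono (hx.sub hy) ?_ fun ω => pw_lip hd hxy hd1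
    exact ((h.memLp_S m).integrable_sq.div_const _).const_mul _
  rw [integral_sub hx hy, integral_sub (h.int_abs m x) (integrable_const _),
    integral_sub (h.int_abs m y) (integrable_const _), integral_const_mul, integral_div,
    h.sq_S m] at h1
  simp only [integral_const, probReal_univ, one_smul] at h1
  unfold A
  linarith

/-! ### The exponential inequality -/

theorem exp_le_lin {v θ : ℝ} (hv : 0 ≤ v) (hvθ : v ≤ θ) (hθ : θ ≤ 1) :
    Real.exp v ≤ 1 + (1 + θ) * v := by
  have h1 : |v| ≤ 1 := by rw [abs_of_nonneg hv]; linarith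
  have h2 := Real.abs_exp_sub_one_sub_id_le h1
  rw [abs_le] at h2
  nlinarith [h2.2]

/-- exponential moment for one block of length `4 m` -/
theorem Walk.exp_block (h : Walk μ X) (m : ℕ) (x s θ : ℝ) (hs : 0 ≤ s) (hθ1 : θ ≤ 1)
    (hsθ : s * (4 * A μ X m 0) ≤ θ) (V : ℕ → Ω → ℝ) (hVm : ∀ r, Measurable (V r))
    (hV : ∀ r, IdentDistrib (V r) (S X (r * m)) μ μ) :
    ∫⁻ ω, ENNReal.ofReal (Real.exp (s * ((∑ r ∈ range 4, A μ X m (x + V r ω)) -
      (1 + θ) * A μ X (4 * m) x))) ∂μ ≤ 1 := by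
  have := h.prob
  have hF0 : ∀ ω, 0 ≤ ∑ r ∈ range 4, A μ X m (x + V r ω) := fun ω =>
    Finset.sum_nonneg fun r _ => h.A_nonneg _ _
  have hF1 : ∀ ω, ∑ r ∈ range 4, A μ X m (x + V r ω) ≤ 4 * A μ X m 0 := by
    intro ω
    calc _ ≤ ∑ r ∈ range 4, A μ X m 0 := Finset.sum_le_sum fun r _ => h.A_le _ _
      _ = _ := by simp
  have hθ0 : 0 ≤ θ := le_trans (mul_nonneg hs (by have := h.A_nonneg m 0; linarith)) hsθ
  have hint0 : ∀ r, Integrable (fun ω => A μ X m (x + V r ω)) μ :=
    fun r => h.int_A m (measurable_const.add (hVm r))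
  have hint : Integrable (fun ω => ∑ r ∈ range 4, A μ X m (x + V r ω)) μ :=
    integrable_finsetSum _ fun r _ => hint0 r
  have hE : ∫ ω, ∑ r ∈ range 4, A μ X m (x + V r ω) ∂μ = A μ X (4 * m) x := by
    rw [integral_finsetSum _ fun r _ => hint0 r, ← h.A_four m x]
    refine Finset.sum_congr rfl fun r _ => ?_
    have := (hV r).comp (u := fun y => A μ X m (x + y))
      ((h.A_cont m).comp (continuous_const.add continuous_id)).measurable
    exact this.integral_eq
  have hpt : ∀ ω, Real.exp (s * ((∑ r ∈ range 4, A μ X m (x + V r ω)) -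
      (1 + θ) * A μ X (4 * m) x)) ≤
      (1 + (1 + θ) * (s * ∑ r ∈ range 4, A μ X m (x + V r ω))) *
        Real.exp (-(s * (1 + θ) * A μ X (4 * m) x)) := by
    intro ω
    have e : s * ((∑ r ∈ range 4, A μ X m (x + V r ω)) - (1 + θ) * A μ X (4 * m) x) =
      s * (∑ r ∈ range 4, A μ X m (x + V r ω)) + -(s * (1 + θ) * A μ X (4 * m) x) := by ring
    rw [e, Real.exp_add]
    gcongr
    exact exp_le_lin (mul_nonneg hs (hF0 ω)) ((mul_le_mul_of_nonneg_left (hF1 ω) hs).trans hsθ) hθ1
  have hint2 : Integrable (fun ω => (1 + (1 + θ) * (s * ∑ r ∈ range 4, A μ X m (x + V r ω))) *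
        Real.exp (-(s * (1 + θ) * A μ X (4 * m) x))) μ :=
    ((integrable_const (1 : ℝ)).add ((hint.const_mul s).const_mul (1 + θ))).mul_const _
  calc ∫⁻ ω, ENNReal.ofReal (Real.exp (s * ((∑ r ∈ range 4, A μ X m (x + V r ω)) -
      (1 + θ) * A μ X (4 * m) x))) ∂μ
      ≤ ∫⁻ ω, ENNReal.ofReal ((1 + (1 + θ) * (s * ∑ r ∈ range 4, A μ X m (x + V r ω))) *
        Real.exp (-(s * (1 + θ) * A μ X (4 * m) x))) ∂μ :=
        lintegral_mono fun ω => ENNReal.ofReal_le_ofReal (hpt ω)
    _ = ENNReal.ofReal (∫ ω, (1 + (1 + θ) * (s * ∑ r ∈ range 4, A μ X m (x + V r ω))) *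
        Real.exp (-(s * (1 + θ) * A μ X (4 * m) x)) ∂μ) := by
        rw [ofReal_integral_eq_lintegral_ofReal hint2]
        refine Filter.Eventually.of_forall fun ω => ?_
        exact (Real.exp_pos _).le.trans (hpt ω)
    _ ≤ ENNReal.ofReal 1 := by
        refine ENNReal.ofReal_le_ofReal ?_
        rw [integral_mul_const, integral_add (integrable_const _)
          ((hint.const_mul s).const_mul (1 + θ)), integral_const_mul, integral_const_mul, hE]
        simp only [integral_const, probReal_univ, one_smul]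
        set q := s * (1 + θ) * A μ X (4 * m) x with hq
        have e : 1 + (1 + θ) * (s * A μ X (4 * m) x) = q + 1 := by rw [hq]; ring
        rw [e]
        calc (q + 1) * Real.exp (-q) ≤ Real.exp q * Real.exp (-q) := by
              gcongr
              exact Real.add_one_le_exp q
          _ = 1 := by rw [← Real.exp_add]; simp
    _ = 1 := ENNReal.ofReal_one

/-- sum over blocks -/
noncomputable def FG (μ : Measure Ω) (X : ℕ → Ω → ℝ) (m : ℕ) (θ : ℝ) (y : ℕ → ℝ) (J : ℕ) (ω : Ω) :
    ℝ :=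
  ∑ j ∈ range J, ((∑ r ∈ range 4, A μ X m (S X ((4 * j + r) * m) ω - y j)) -
    (1 + θ) * A μ X (4 * m) (S X (4 * j * m) ω - y j))

theorem Walk.meas_past_FG (h : Walk μ X) (m : ℕ) (θ : ℝ) (y : ℕ → ℝ) (J : ℕ) :
    Measurable[past X (4 * J * m)] (FG μ X m θ y J) := by
  unfold FG
  refine @Finset.measurable_sum _ _ _ _ _ _ (past X (4 * J * m)) _ _ fun j hj => ?_
  have hj' : j + 1 ≤ J := mem_range.1 hj
  have m1 : ∀ r, r ≤ 4 → Measurable[past X (4 * J * m)]
      (fun ω => S X ((4 * j + r) * m) ω - y j) := by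
    intro r hr
    refine Measurable.sub_const (meas_past_S ?_) _
    exact Nat.mul_le_mul_right _ (by omega)
  refine Measurable.sub ?_ ?_
  · refine @Finset.measurable_sum _ _ _ _ _ _ (past X (4 * J * m)) _ _ fun r hr => ?_
    exact (h.A_cont m).measurable.comp (m1 r (by have := mem_range.1 hr; omega))
  · refine Measurable.const_mul ?_ _
    exact (h.A_cont (4 * m)).measurable.comp (m1 0 (by omega))

theorem Walk.exp_FG (h : Walk μ X) (m : ℕ) (s θ : ℝ) (hs : 0 ≤ s) (hθ1 : θ ≤ 1)
    (hsθ : s * (4 * A μ X m 0) ≤ θ) (y : ℕ → ℝ) (J : ℕ) :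
    ∫⁻ ω, ENNReal.ofReal (Real.exp (s * FG μ X m θ y J ω)) ∂μ ≤ 1 := by
  have := h.prob
  induction J with
  | zero => simp [FG]
  | succ J ih =>
    refine le_trans ?_ ih
    set a := 4 * J * m with ha
    have hU : Measurable[past X a] (fun ω => (FG μ X m θ y J ω, S X a ω)) :=
      (h.meas_past_FG m θ y J).prodMk (meas_past_S le_rfl)
    have hV : Measurable[fut X a] (fun ω => fun r : ℕ => S X (a + r * m) ω - S X a ω) :=
      @measurable_pi_lambda _ _ _ (fut X a) _ _ fun r => meas_fut_inc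
    have hi := h.indepFun hU hV
    have hU' : Measurable (fun ω => (FG μ X m θ y J ω, S X a ω)) := hU.mono (h.past_le a) le_rfl
    have hV' : Measurable (fun ω => fun r : ℕ => S X (a + r * m) ω - S X a ω) :=
      measurable_pi_iff.2 fun r => (h.meas_S _).sub (h.meas_S _)
    have key := freeze (μ := μ) hU' hV' hi
      (fun p => ENNReal.ofReal (Real.exp (s * p.1)))
      (by fun_prop)
      (fun p v => ENNReal.ofReal (Real.exp (s * ((∑ r ∈ range 4, A μ X m ((p.2 - y J) + v r)) -
        (1 + θ) * A μ X (4 * m) (p.2 - y J)))))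
      (by
        have c1 := (h.A_cont m).measurable
        have c2 := (h.A_cont (4 * m)).measurable
        unfold Function.uncurry
        fun_prop)
      (fun u => h.exp_block m (u.2 - y J) s θ hs hθ1 hsθ (fun r ω => S X (a + r * m) ω - S X a ω)
        (fun r => (h.meas_S _).sub (h.meas_S _)) (fun r => h.ident_inc a (r * m)))
    refine le_trans (le_of_eq ?_) key
    refine lintegral_congr fun ω => ?_
    rw [← ENNReal.ofReal_mul (Real.exp_pos _).le, ← Real.exp_add]
    congr 2
    have e1 : FG μ X m θ y (J + 1) ω = FG μ X m θ y J ω +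
        ((∑ r ∈ range 4, A μ X m (S X ((4 * J + r) * m) ω - y J)) -
          (1 + θ) * A μ X (4 * m) (S X (4 * J * m) ω - y J)) := by
      unfold FG
      rw [Finset.sum_range_succ]
    rw [e1, ← ha, mul_add]
    congr 3
    refine Finset.sum_congr rfl fun r _ => ?_
    congr 1
    have e2 : (4 * J + r) * m = a + r * m := by rw [ha]; ring
    rw [e2]
    ring

/-- deviation inequality for a fixed path -/
theorem Walk.dev (h : Walk μ X) (m : ℕ) (s θ : ℝ) (hs : 0 < s) (hθ1 : θ ≤ 1)
    (hsθ : s * (4 * A μ X m 0) ≤ θ) (y : ℕ → ℝ) (J : ℕ) (u : ℝ) :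
    μ {ω | u / s ≤ FG μ X m θ y J ω} ≤ ENNReal.ofReal (Real.exp (-u)) := by
  have := h.prob
  have h1 := h.exp_FG m s θ hs.le hθ1 hsθ y J
  have hm : Measurable (fun ω => ENNReal.ofReal (Real.exp (s * FG μ X m θ y J ω))) := by
    have := (h.meas_past_FG m θ y J).mono (h.past_le _) le_rfl
    fun_prop
  have h2 := mul_meas_ge_le_lintegral (μ := μ) hm (ENNReal.ofReal (Real.exp u))
  have h3 : {ω | u / s ≤ FG μ X m θ y J ω} ⊆ {ω | ENNReal.ofReal (Real.exp u) ≤
      ENNReal.ofReal (Real.exp (s * FG μ X m θ y J ω))} := by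
    intro ω hω
    refine ENNReal.ofReal_le_ofReal (Real.exp_le_exp.2 ?_)
    have h5 : u / s ≤ FG μ X m θ y J ω := hω
    rw [div_le_iff₀ hs] at h5
    linarith
  have h4 : ENNReal.ofReal (Real.exp u) * μ {ω | u / s ≤ FG μ X m θ y J ω} ≤ 1 :=
    (mul_le_mul_right (measure_mono h3) _).trans (h2.trans h1)
  rw [Real.exp_neg, ENNReal.ofReal_inv_of_pos (Real.exp_pos u), ← one_div,
    ENNReal.le_div_iff_mul_le (Or.inl (by simpa using Real.exp_pos u)) (Or.inl ENNReal.ofReal_ne_top),
    mul_comm]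
  exact h4

end Pool.Agent.W844.LIS
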