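import Pool.Agent.W844.LIS.Lower
import Pool.Agent.W844.LIS.Det
import Pool.Agent.W844.LIS.Count

set_option autoImplicit false
set_option linter.unusedSectionVars false
set_option linter.unusedVariables false

open MeasureTheory ProbabilityTheory Filter Finset
open scoped Topology ENNReal

namespace Pool.Agent.W844.LIS

variable {Ω : Type*} [mΩ : MeasurableSpace Ω] {μ : Measure Ω} {X : ℕ → Ω → ℝ}

theorem FG_congr (m : ℕ) (θ : ℝ) {y y' : ℕ → ℝ} {J : ℕ} (h : ∀ j < J, y j = y' j) (ω : Ω) :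
    FG μ X m θ y J ω = FG μ X m θ y' J ω := by
  unfold FG
  refine Finset.sum_congr rfl fun j hj => ?_
  rw [h j (mem_range.1 hj)]

/-- all monotone lattice paths at once -/
theorem Walk.dev_all (h : Walk μ X) (m : ℕ) (s θ : ℝ) (hs : 0 < s) (hθ1 : θ ≤ 1)
    (hsθ : s * (4 * A μ X m 0) ≤ θ) (J Q : ℕ) (hh u : ℝ) :
    μ {ω | ∃ q : ℕ → ℤ, Monotone q ∧ (∀ j, |q j| ≤ Q) ∧
        u / s ≤ FG μ X m θ (fun j => hh * q j) J ω} ≤
      ENNReal.ofReal (((J : ℝ) + 1) ^ (2 * Q + 1) * Real.exp (-u)) := by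
  classical
  let T : Finset (Fin J → Fin (2 * Q + 1)) := univ.filter fun f => Monotone f
  let y : (Fin J → Fin (2 * Q + 1)) → ℕ → ℝ := fun f j =>
    if hj : j < J then hh * (((f ⟨j, hj⟩ : ℕ) : ℝ) - Q) else 0
  have hsub : {ω | ∃ q : ℕ → ℤ, Monotone q ∧ (∀ j, |q j| ≤ Q) ∧
        u / s ≤ FG μ X m θ (fun j => hh * q j) J ω} ⊆
      ⋃ f ∈ T, {ω | u / s ≤ FG μ X m θ (y f) J ω} := by
    rintro ω ⟨q, hq, hqb, hqu⟩
    have hb : ∀ j, 0 ≤ q j + Q ∧ q j + Q ≤ 2 * Q := fun j => by
      have := abs_le.1 (hqb j); constructor <;> linarith [this.1, this.2]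
    let f : Fin J → Fin (2 * Q + 1) := fun j => ⟨(q j + Q).toNat, by have := hb j; omega⟩
    have hf : f ∈ T := by
      refine mem_filter.2 ⟨mem_univ _, fun i j hij => ?_⟩
      have h1 : q i ≤ q j := hq hij
      show (q i + Q).toNat ≤ (q j + Q).toNat
      omega
    refine Set.mem_biUnion hf ?_
    show u / s ≤ _
    rw [FG_congr (y' := fun j => hh * (q j : ℝ))]
    · exact hqu
    · intro j hj
      show (if hj : j < J then hh * (((f ⟨j, hj⟩ : ℕ) : ℝ) - Q) else 0) = _
      rw [dif_pos hj]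
      congr 1
      have h2 : ((f ⟨j, hj⟩ : ℕ) : ℤ) = q j + Q := by
        show (((q j + Q).toNat : ℕ) : ℤ) = _
        rw [Int.toNat_of_nonneg (hb j).1]
      have h3 : ((f ⟨j, hj⟩ : ℕ) : ℝ) = (q j : ℝ) + Q := by exact_mod_cast h2
      rw [h3]; ring
  refine (measure_mono hsub).trans ?_
  refine (measure_biUnion_finset_le T _).trans ?_
  calc ∑ f ∈ T, μ {ω | u / s ≤ FG μ X m θ (y f) J ω}
      ≤ ∑ f ∈ T, ENNReal.ofReal (Real.exp (-u)) :=
        Finset.sum_le_sum fun f _ => h.dev m s θ hs hθ1 hsθ (y f) J u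
    _ = T.card * ENNReal.ofReal (Real.exp (-u)) := by rw [Finset.sum_const, nsmul_eq_mul]
    _ ≤ ENNReal.ofReal (((J : ℝ) + 1) ^ (2 * Q + 1)) * ENNReal.ofReal (Real.exp (-u)) := by
        gcongr
        rw [← ENNReal.ofReal_natCast]
        refine ENNReal.ofReal_le_ofReal ?_
        have := card_mono J (2 * Q + 1)
        exact_mod_cast this
    _ = _ := by rw [← ENNReal.ofReal_mul (by positivity)]

/-- the hypotheses of the deterministic step hold -/
theorem Walk.good (h : Walk μ X) {c : ℝ} (hc0 : 0 < c) (hc : ∀ n : ℕ, 1 ≤ n → c * √n ≤ A μ X n 0)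
    (m : ℕ) (hm : 1 ≤ m) : Good (A μ X m) (m * vr μ X) (c / 3 * √m) where
  nn := h.A_nonneg m
  le0 := h.A_le m
  lip := h.A_lip m
  lip2 := fun x y d hd hxy hd1 => h.A_lip2 m hd hxy hd1
  uni1 := by
    have := h.prob
    intro x y hy hyx
    unfold A
    rw [abs_of_nonneg hy, abs_of_nonneg (hy.trans hyx)]
    have h1 : ∫ ω, |x + S X m ω| ∂μ ≤ ∫ ω, ((x - y) + |y + S X m ω|) ∂μ := by
      refine integral_mono (h.int_abs m x) ((integrable_const _).add (h.int_abs m y)) fun ω => ?_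
      calc |x + S X m ω| = |(x - y) + (y + S X m ω)| := by ring_nf
        _ ≤ |x - y| + |y + S X m ω| := abs_add_le _ _
        _ = _ := by rw [abs_of_nonneg (sub_nonneg.2 hyx)]
    rw [integral_add (integrable_const _) (h.int_abs m y), integral_const] at h1
    simp only [probReal_univ, one_smul] at h1
    linarith
  uni2 := by
    have := h.prob
    intro x y hxy hy
    unfold A
    rw [abs_of_nonpos hy, abs_of_nonpos (hxy.trans hy)]
    have h1 : ∫ ω, |x + S X m ω| ∂μ ≤ ∫ ω, ((y - x) + |y + S X m ω|) ∂μ := by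
      refine integral_mono (h.int_abs m x) ((integrable_const _).add (h.int_abs m y)) fun ω => ?_
      calc |x + S X m ω| = |(y + S X m ω) - (y - x)| := by ring_nf
        _ ≤ |y + S X m ω| + |y - x| := abs_sub _ _
        _ = _ := by rw [abs_of_nonneg (sub_nonneg.2 hxy)]; ring
    rw [integral_add (integrable_const _) (h.int_abs m y), integral_const] at h1
    simp only [probReal_univ, one_smul] at h1
    linarith
  low := by
    intro x hx
    have h1 := hc m hm
    have h2 := h.A_lip m 0 x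
    rw [zero_sub, abs_neg] at h2
    linarith

end Pool.Agent.W844.LIS
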